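import Pool.Agent.helper937_rot.Final

set_option autoImplicit false

namespace Pool.Agent.helper937_rot

open Finset Filter
open scoped Classical

lemma primeCounting_le (N : ℕ) : Nat.primeCounting N ≤ #(prm N) + 2 := by
  rw [Nat.primeCounting, Nat.primeCounting', Nat.count_eq_card_filter_range]
  have : {p ∈ range (N + 1) | Nat.Prime p} ⊆ prm N ∪ {2, 3} := by
    intro p hp
    rw [mem_filter, mem_range] at hp
    rw [mem_union, mem_prm]
    by_cases h5 : 5 ≤ p
    · left; exact ⟨⟨h5, by omega⟩, hp.2⟩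
    · right
      have h2 := hp.2.two_le
      simp only [mem_insert, mem_singleton]
      have h4 : p ≠ 4 := by
        rintro rfl
        exact absurd hp.2 (by norm_num)
      omega
  refine (card_le_card this).trans ((card_union_le _ _).trans ?_)
  exact Nat.add_le_add_left (card_le_two) _

lemma prm_lower {s : ℝ} (hs0 : 0 ≤ s) (hs : s < 1) :
    ∀ᶠ N : ℕ in atTop, (N : ℝ) ^ s ≤ #(prm N) := by
  have h1 : ∀ᶠ x : ℝ in atTop, Real.log x ≤ (Real.log 2 / 6) * x ^ (1 - s) := by
    have := (isLittleO_log_rpow_atTop (sub_pos.mpr hs)).bound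
      (show (0 : ℝ) < Real.log 2 / 6 by positivity)
    filter_upwards [this, eventually_ge_atTop 1] with x hx h1
    rw [Real.norm_of_nonneg (Real.log_nonneg h1),
      Real.norm_of_nonneg (Real.rpow_nonneg (by linarith) _)] at hx
    exact hx
  have h2 : ∀ᶠ x : ℝ in atTop, Real.log (x + 1) ≤ (Real.log 2 / 2) * x := by
    have := (isLittleO_log_rpow_atTop (show (0 : ℝ) < 1 by norm_num)).bound
      (show (0 : ℝ) < Real.log 2 / 4 by positivity)
    have h3 := (tendsto_atTop_add_const_right atTop (1 : ℝ) tendsto_id).eventually this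
    filter_upwards [h3, eventually_ge_atTop 1] with x hx h1
    simp only [id] at hx
    rw [Real.norm_of_nonneg (Real.log_nonneg (by linarith)), Real.rpow_one,
      Real.norm_of_nonneg (by linarith)] at hx
    have hl : 0 < Real.log 2 := Real.log_pos (by norm_num)
    nlinarith
  have h1' := tendsto_natCast_atTop_atTop.eventually h1
  have h2' := tendsto_natCast_atTop_atTop.eventually h2
  filter_upwards [h1', h2', eventually_ge_atTop 2] with N a1 a2 a3
  have hN : (2 : ℝ) ≤ N := by exact_mod_cast a3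
  have hlog : 0 < Real.log N := Real.log_pos (by linarith)
  have hl2 : 0 < Real.log 2 := Real.log_pos (by norm_num)
  have hpi := Chebyshev.pi_ge N
  have hle : (Nat.primeCounting N : ℝ) ≤ #(prm N) + 2 := by exact_mod_cast primeCounting_le N
  have hNs : (1 : ℝ) ≤ (N : ℝ) ^ s := Real.one_le_rpow (by linarith) hs0
  have key : (N : ℝ) ^ s + 2 ≤ (N * Real.log 2 - Real.log (N + 1)) / Real.log N := by
    rw [le_div_iff₀ hlog]
    have e1 : ((N : ℝ) ^ s + 2) * Real.log N ≤ 3 * (N : ℝ) ^ s * Real.log N := by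
      gcongr; linarith
    have e2 : 3 * (N : ℝ) ^ s * Real.log N ≤ 3 * (N : ℝ) ^ s * ((Real.log 2 / 6) *
        (N : ℝ) ^ (1 - s)) := by gcongr
    have e3 : (N : ℝ) ^ s * (N : ℝ) ^ (1 - s) = N := by
      rw [← Real.rpow_add (by linarith)]
      simp
    have e4 : 3 * (N : ℝ) ^ s * ((Real.log 2 / 6) * (N : ℝ) ^ (1 - s)) =
        Real.log 2 / 2 * N := by
      calc _ = Real.log 2 / 2 * ((N : ℝ) ^ s * (N : ℝ) ^ (1 - s)) := by ring
        _ = _ := by rw [e3]
    linarith
  linarith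

/-- a power of smaller exponent is eventually dominated -/
lemma pow_dom {p q : ℝ} (h : p < q) (C : ℝ) :
    ∀ᶠ j : ℕ in atTop, C * ((j : ℝ) + 1) ^ p ≤ ((j : ℝ) + 1) ^ q := by
  have h1 : Tendsto (fun x : ℝ => x ^ (q - p)) atTop atTop := tendsto_rpow_atTop (sub_pos.mpr h)
  have h2 : Tendsto (fun j : ℕ => (j : ℝ) + 1) atTop atTop :=
    tendsto_atTop_add_const_right _ _ tendsto_natCast_atTop_atTop
  have h3 := (h1.comp h2).eventually (eventually_ge_atTop C)
  filter_upwards [h3] with j hj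
  simp only [Function.comp] at hj
  have hpos : (0 : ℝ) < (j : ℝ) + 1 := by positivity
  calc C * ((j : ℝ) + 1) ^ p ≤ ((j : ℝ) + 1) ^ (q - p) * ((j : ℝ) + 1) ^ p := by
        apply mul_le_mul_of_nonneg_right hj (by positivity)
    _ = ((j : ℝ) + 1) ^ q := by
        rw [← Real.rpow_add hpos]; ring_nf

/-- powers are eventually dominated by `2 ^ (j / 2)` -/
lemma pow_two_dom (p C : ℝ) :
    ∀ᶠ j : ℕ in atTop, C * ((j : ℝ) + 1) ^ p ≤ 2 ^ (j / 2) := by
  have h1 : ∀ᶠ x : ℝ in atTop, ‖x ^ p‖ ≤ (1 / (4 * (|C| + 1))) * ‖Real.exp (Real.log 2 / 2 * x)‖ :=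
    (isLittleO_rpow_exp_pos_mul_atTop p (by
      have : 0 < Real.log 2 := Real.log_pos (by norm_num)
      positivity)).bound (by positivity)
  have h2 : Tendsto (fun j : ℕ => (j : ℝ) + 1) atTop atTop :=
    tendsto_atTop_add_const_right _ _ tendsto_natCast_atTop_atTop
  filter_upwards [h2.eventually h1] with j hj
  have hpos : (0 : ℝ) < (j : ℝ) + 1 := by positivity
  rw [Real.norm_of_nonneg (by positivity), Real.norm_of_nonneg (by positivity)] at hj
  have e1 : Real.exp (Real.log 2 / 2 * ((j : ℝ) + 1)) = (2 : ℝ) ^ (((j : ℝ) + 1) / 2) := by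
    rw [Real.rpow_def_of_pos (by norm_num)]
    congr 1
    ring
  have e2 : (2 : ℝ) ^ (((j : ℝ) + 1) / 2) ≤ 2 * 2 ^ (j / 2) := by
    have : (2 : ℝ) * 2 ^ (j / 2) = (2 : ℝ) ^ (((j / 2 : ℕ) : ℝ) + 1) := by
      rw [Real.rpow_add (by norm_num), Real.rpow_natCast, Real.rpow_one]; ring
    rw [this]
    apply Real.rpow_le_rpow_of_exponent_le (by norm_num)
    have : j ≤ 2 * (j / 2) + 1 := by omega
    have h3 : (j : ℝ) ≤ 2 * ((j / 2 : ℕ) : ℝ) + 1 := by exact_mod_cast this
    linarith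
  rw [e1] at hj
  have hC : C ≤ |C| + 1 := by linarith [le_abs_self C]
  have hCp : 0 < |C| + 1 := by positivity
  calc C * ((j : ℝ) + 1) ^ p ≤ (|C| + 1) * ((j : ℝ) + 1) ^ p := by gcongr
    _ ≤ (|C| + 1) * (1 / (4 * (|C| + 1)) * (2 : ℝ) ^ (((j : ℝ) + 1) / 2)) := by gcongr
    _ = 1 / 4 * (2 : ℝ) ^ (((j : ℝ) + 1) / 2) := by field_simp
    _ ≤ 1 / 4 * (2 * 2 ^ (j / 2)) := by gcongr
    _ ≤ 2 ^ (j / 2) := by
        have : (0 : ℝ) ≤ 2 ^ (j / 2) := by positivity
        linarith

end Pool.Agent.helper937_rot
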