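import Mathlib

set_option autoImplicit false

namespace Pool.Agent.helper937_rot

open Finset

/-- the half-circle sign function -/
noncomputable def phi (x : ℝ) : ℤ := if Int.fract x < 1 / 2 then 1 else -1

/-- distance to the nearest integer -/
noncomputable def tau (y : ℝ) : ℝ := |y - round y|

lemma tau_nonneg (y : ℝ) : 0 ≤ tau y := abs_nonneg _

lemma tau_le_half (y : ℝ) : tau y ≤ 1 / 2 := abs_sub_round y

lemma tau_le (y : ℝ) (z : ℤ) : tau y ≤ |y - z| := round_le y z

lemma tau_le_tau_add (a b : ℝ) : tau a ≤ |a - b| + tau b := by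
  have h1 := tau_le a (round b)
  have h2 : |a - (round b : ℝ)| ≤ |a - b| + |b - round b| := by
    have := abs_add_le (a - b) (b - round b)
    simpa using this
  exact h1.trans h2

lemma abs_tau_sub_tau_le (a b : ℝ) : |tau a - tau b| ≤ |a - b| := by
  rw [abs_le]
  constructor
  · have := tau_le_tau_add b a
    rw [abs_sub_comm b a] at this
    linarith
  · have := tau_le_tau_add a b
    linarith

lemma tau_add_int (y : ℝ) (z : ℤ) : tau (y + z) = tau y := by
  unfold tau
  rw [round_add_intCast]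
  push_cast
  congr 1
  ring

lemma tau_neg (y : ℝ) : tau (-y) = tau y := by
  apply le_antisymm
  · have := tau_le (-y) (-(round y))
    calc tau (-y) ≤ |(-y) - ((-(round y) : ℤ) : ℝ)| := this
      _ = |-(y - round y)| := by push_cast; congr 1; ring
      _ = tau y := by rw [abs_neg]; rfl
  · have := tau_le y (-(round (-y)))
    calc tau y ≤ |y - ((-(round (-y)) : ℤ) : ℝ)| := this
      _ = |-((-y) - round (-y))| := by push_cast; congr 1; ring
      _ = tau (-y) := by rw [abs_neg]; rfl

lemma tau_of_abs_le {y : ℝ} (h : |y| ≤ 1 / 2) : tau y = |y| := by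
  apply le_antisymm
  · have := tau_le y 0
    simpa using this
  · -- |y| ≤ |y - round y|
    unfold tau
    by_cases hr : round y = 0
    · rw [hr]; simp
    · have h1 : (1 : ℝ) ≤ |(round y : ℝ)| := by
        have : (1 : ℤ) ≤ |round y| := Int.one_le_abs hr
        exact_mod_cast this
      have h2 : |(round y : ℝ)| ≤ |y - round y| + |y| := by
        have := abs_add_le (-(y - round y)) y
        rw [abs_neg] at this
        have e : -(y - (round y : ℝ)) + y = round y := by ring
        rw [e] at this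
        exact this
      linarith

lemma tau_of_mem {y : ℝ} (h0 : 0 ≤ y) (h : y ≤ 1 / 2) : tau y = y := by
  have : |y| = y := abs_of_nonneg h0
  rw [tau_of_abs_le (by rw [this]; exact h), this]

lemma tau_add_le (a b : ℝ) : tau (a + b) ≤ tau a + tau b := by
  have h := tau_le (a + b) (round a + round b)
  refine h.trans ?_
  have := abs_add_le (a - round a) (b - round b)
  calc |a + b - ((round a + round b : ℤ) : ℝ)| = |(a - round a) + (b - round b)| := by
        push_cast; congr 1; ring
    _ ≤ _ := this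

lemma tau_nat_mul_le (k : ℕ) (y : ℝ) : tau (k * y) ≤ k * tau y := by
  induction k with
  | zero => simp [tau]
  | succ k ih =>
    have : ((k + 1 : ℕ) : ℝ) * y = k * y + y := by push_cast; ring
    rw [this]
    refine (tau_add_le _ _).trans ?_
    push_cast
    linarith

/-- `tau (q * s)` depends only on `tau s`. -/
lemma tau_mul_tau (q : ℕ) (s : ℝ) : tau (q * tau s) = tau (q * s) := by
  unfold tau
  rcases abs_cases (s - round s) with ⟨h, _⟩ | ⟨h, _⟩
  · change tau (q * |s - round s|) = tau (q * s)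
    rw [h]
    have e : (q : ℝ) * (s - round s) = q * s + ((-(q * round s) : ℤ) : ℝ) := by push_cast; ring
    rw [e, tau_add_int]
  · change tau (q * |s - round s|) = tau (q * s)
    rw [h]
    have e : (q : ℝ) * (-(s - round s)) = -(q * s) + (((q * round s) : ℤ) : ℝ) := by
      push_cast; ring
    rw [e, tau_add_int, tau_neg]

lemma tau_sub_or_add {a b κ : ℝ} (h : |tau a - tau b| ≤ κ) :
    tau (a - b) ≤ κ ∨ tau (a + b) ≤ κ := by
  rcases abs_cases (a - round a) with ⟨ha, _⟩ | ⟨ha, _⟩ <;>
  rcases abs_cases (b - round b) with ⟨hb, _⟩ | ⟨hb, _⟩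
  · left
    refine (tau_le (a - b) (round a - round b)).trans (le_trans (le_of_eq ?_) h)
    unfold tau; rw [ha, hb]; push_cast; congr 1; ring
  · right
    refine (tau_le (a + b) (round a + round b)).trans (le_trans (le_of_eq ?_) h)
    unfold tau; rw [ha, hb]; push_cast; congr 1; ring
  · right
    refine (tau_le (a + b) (round a + round b)).trans (le_trans (le_of_eq ?_) h)
    unfold tau; rw [ha, hb, ← abs_neg]; push_cast; congr 1; ring
  · left
    refine (tau_le (a - b) (round a - round b)).trans (le_trans (le_of_eq ?_) h)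
    unfold tau; rw [ha, hb, ← abs_neg]; push_cast; congr 1; ring

/-- Two coprime multiples near integers force the number near an integer. -/
lemma tau_le_of_coprime {q q' : ℕ} (hq : 0 < q) (hq' : 0 < q') (hcop : Nat.Coprime q q')
    {y κ : ℝ} (h1 : tau (q * y) ≤ κ) (h2 : tau (q' * y) ≤ κ) (hκ : (q + q' : ℝ) * κ < 1) :
    tau y ≤ κ / q := by
  set A := round (q * y) with hA
  set B := round (q' * y) with hB
  have e1 : |(q : ℝ) * y - A| ≤ κ := h1
  have e2 : |(q' : ℝ) * y - B| ≤ κ := h2
  have hqR : (0 : ℝ) < q := by exact_mod_cast hq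
  have hqR' : (0 : ℝ) < q' := by exact_mod_cast hq'
  have key : (q' : ℤ) * A = q * B := by
    have h3 : |(q' : ℝ) * A - q * B| < 1 := by
      have : (q' : ℝ) * A - q * B = -(q' * (q * y - A)) + q * (q' * y - B) := by ring
      rw [this]
      calc |-(q' * (q * y - A)) + q * (q' * y - B)|
          ≤ |-(q' * (q * y - A))| + |q * (q' * y - B)| := abs_add_le _ _
        _ = q' * |q * y - A| + q * |q' * y - B| := by
            rw [abs_neg, abs_mul, abs_mul, abs_of_pos hqR, abs_of_pos hqR']
        _ ≤ q' * κ + q * κ := by gcongr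
        _ = (q + q') * κ := by ring
        _ < 1 := hκ
    have h4 : |(q' : ℤ) * A - q * B| < 1 := by exact_mod_cast h3
    have := Int.abs_lt_one_iff.mp h4
    linarith
  have hdvd : (q : ℤ) ∣ A := by
    have : (q : ℤ) ∣ q' * A := ⟨B, key⟩
    exact IsCoprime.dvd_of_dvd_mul_left (Nat.isCoprime_iff_coprime.mpr hcop) this
  obtain ⟨z, hz⟩ := hdvd
  refine (tau_le y z).trans ?_
  rw [le_div_iff₀ hqR]
  have : |y - z| * q = |(q : ℝ) * y - A| := by
    rw [hz]; push_cast
    rw [← mul_sub, abs_mul, abs_of_pos hqR, mul_comm]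
  rw [this]
  exact e1

lemma fract_lt_half_iff (x : ℝ) : Int.fract x < 1 / 2 ↔ Even ⌊2 * x⌋ := by
  have hx : 2 * x = 2 * Int.fract x + ((2 * ⌊x⌋ : ℤ) : ℝ) := by
    have := Int.fract_add_floor x
    push_cast
    nlinarith
  have h0 := Int.fract_nonneg x
  have h1 := Int.fract_lt_one x
  rw [hx, Int.floor_add_intCast]
  constructor
  · intro h
    have : ⌊2 * Int.fract x⌋ = 0 := by
      rw [Int.floor_eq_iff]; constructor <;> push_cast <;> linarith
    rw [this, zero_add]
    exact even_two_mul _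
  · intro h
    by_contra hc
    push Not at hc
    have : ⌊2 * Int.fract x⌋ = 1 := by
      rw [Int.floor_eq_iff]; constructor <;> push_cast <;> linarith
    rw [this] at h
    rw [Int.even_add] at h
    have h2 : Even (2 * ⌊x⌋) := even_two_mul _
    have h3 := h.mpr h2
    exact absurd h3 (by decide)

lemma phi_eq (x : ℝ) : phi x = if Even ⌊2 * x⌋ then 1 else -1 := by
  unfold phi
  by_cases h : Int.fract x < 1 / 2
  · rw [if_pos h, if_pos ((fract_lt_half_iff x).mp h)]
  · rw [if_neg h, if_neg (fun hh => h ((fract_lt_half_iff x).mpr hh))]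

lemma phi_add_int (x : ℝ) (z : ℤ) : phi (x + z) = phi x := by
  unfold phi; rw [Int.fract_add_intCast]

/-- number of sign changes -/
def chg (w : ℕ → ℤ) (M : ℕ) : ℕ := #{i ∈ range M | w i ≠ w (i + 1)}

lemma chg_congr {w w' : ℕ → ℤ} {M : ℕ} (h : ∀ i ≤ M, w i = w' i) : chg w M = chg w' M := by
  unfold chg
  congr 1
  apply filter_congr
  intro i hi
  rw [mem_range] at hi
  rw [h i (by omega), h (i + 1) (by omega)]

lemma chg_rot_nonneg (t β : ℝ) (h0 : 0 ≤ β) (h1 : β ≤ 1 / 2) (M : ℕ) :
    ((chg (fun i => phi (t + i * β)) M : ℕ) : ℤ) = ⌊2 * (t + M * β)⌋ - ⌊2 * t⌋ := by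
  induction M with
  | zero => simp [chg]
  | succ M ih =>
    have hstep : chg (fun i => phi (t + i * β)) (M + 1)
        = chg (fun i => phi (t + i * β)) M
          + (if phi (t + M * β) ≠ phi (t + (M + 1 : ℕ) * β) then 1 else 0) := by
      unfold chg
      rw [range_add_one, filter_insert]
      split_ifs with hh
      · rw [card_insert_of_notMem]
        · 
          simp
      · simp
    rw [hstep]
    push_cast
    rw [ih]
    set u := 2 * (t + M * β) with hu
    have hv : 2 * (t + (M + 1 : ℝ) * β) = u + 2 * β := by rw [hu]; ring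
    rw [hv]
    have hge : ⌊u⌋ ≤ ⌊u + 2 * β⌋ := Int.floor_le_floor (by linarith)
    have hle : ⌊u + 2 * β⌋ ≤ ⌊u⌋ + 1 := by
      have : ⌊u + 2 * β⌋ ≤ ⌊u + 1⌋ := Int.floor_le_floor (by linarith)
      rwa [Int.floor_add_one] at this
    rw [phi_eq, phi_eq, hv, ← hu]
    rcases (by omega : ⌊u + 2 * β⌋ = ⌊u⌋ ∨ ⌊u + 2 * β⌋ = ⌊u⌋ + 1) with h | h
    · rw [h]; simp
    · rw [h]
      by_cases he : Even ⌊u⌋
      · have : ¬ Even (⌊u⌋ + 1) := by
          rw [Int.not_even_iff_odd]; exact he.add_one
        rw [if_pos he, if_neg this]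
        norm_num
        ring
      · have : Even (⌊u⌋ + 1) := by
          rw [Int.not_even_iff_odd] at he; exact he.add_one
        rw [if_neg he, if_pos this]
        norm_num
        ring

lemma chg_reflect (w : ℕ → ℤ) (M : ℕ) : chg (fun i => w (M - i)) M = chg w M := by
  unfold chg
  apply card_bij (fun i _ => M - 1 - i)
  · intro i hi
    simp only [mem_filter, mem_range] at hi ⊢
    refine ⟨by omega, ?_⟩
    have e1 : M - 1 - i = M - (i + 1) := by omega
    have e2 : M - 1 - i + 1 = M - i := by omega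
    rw [e2, e1]
    exact fun h => hi.2 h.symm
  · intro i hi j hj h
    simp only [mem_filter, mem_range] at hi hj
    omega
  · intro j hj
    simp only [mem_filter, mem_range] at hj
    refine ⟨M - 1 - j, ?_, by omega⟩
    simp only [mem_filter, mem_range]
    refine ⟨by omega, ?_⟩
    have e1 : M - (M - 1 - j) = j + 1 := by omega
    have e2 : M - (M - 1 - j + 1) = j := by omega
    rw [e1, e2]
    exact fun h => hj.2 h.symm

lemma chg_rot (t α : ℝ) (M : ℕ) :
    |(chg (fun i => phi (t + i * α)) M : ℝ) - 2 * M * tau α| ≤ 1 := by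
  have main : ∀ (t β : ℝ), 0 ≤ β → β ≤ 1 / 2 →
      |(chg (fun i => phi (t + i * β)) M : ℝ) - 2 * M * β| ≤ 1 := by
    intro t β h0 h1
    have h := chg_rot_nonneg t β h0 h1 M
    have hR : (chg (fun i => phi (t + i * β)) M : ℝ) = (⌊2 * (t + M * β)⌋ : ℝ) - ⌊2 * t⌋ := by
      exact_mod_cast h
    rw [hR]
    have a1 := Int.floor_le (2 * (t + M * β))
    have a2 := Int.lt_floor_add_one (2 * (t + M * β))
    have b1 := Int.floor_le (2 * t)
    have b2 := Int.lt_floor_add_one (2 * t)
    rw [abs_le]; constructor <;> linarith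
  set k := round α with hk
  set β := α - k with hβ
  have hphi : ∀ i : ℕ, phi (t + i * α) = phi (t + i * β) := by
    intro i
    have : t + i * α = t + i * β + ((i * k : ℤ) : ℝ) := by
      push_cast; rw [hβ]; ring
    rw [this, phi_add_int]
  have hcon : chg (fun i => phi (t + i * α)) M = chg (fun i => phi (t + i * β)) M :=
    chg_congr (fun i _ => hphi i)
  rw [hcon]
  have htau : tau α = |β| := rfl
  have hb : |β| ≤ 1 / 2 := abs_sub_round α
  rw [htau]
  rcases abs_cases β with ⟨h, h'⟩ | ⟨h, h'⟩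
  · rw [h] at hb ⊢
    exact main t β h' hb
  · rw [h] at hb ⊢
    rw [← chg_reflect]
    have : chg (fun i => phi (t + ((M - i : ℕ) : ℝ) * β)) M
        = chg (fun i => phi ((t + M * β) + i * (-β))) M := by
      apply chg_congr
      intro i hi
      rw [Nat.cast_sub hi]
      congr 1
      ring
    rw [this]
    exact main _ _ (by linarith) hb

lemma chg_le_add (w w' : ℕ → ℤ) (M : ℕ) :
    chg w M ≤ chg w' M + #{i ∈ range M | w i ≠ w' i} + #{i ∈ range M | w (i + 1) ≠ w' (i + 1)} := by
  unfold chg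
  have : {i ∈ range M | w i ≠ w (i + 1)} ⊆
      ({i ∈ range M | w' i ≠ w' (i + 1)} ∪ {i ∈ range M | w i ≠ w' i})
        ∪ {i ∈ range M | w (i + 1) ≠ w' (i + 1)} := by
    intro i hi
    simp only [mem_filter, mem_range, mem_union] at hi ⊢
    by_contra hc
    push Not at hc
    obtain ⟨⟨c1, c2⟩, c3⟩ := hc
    have := c1 hi.1
    have := c2 hi.1
    have := c3 hi.1
    apply hi.2
    simp_all
  exact (card_le_card this).trans ((card_union_le _ _).trans
    (Nat.add_le_add_right (card_union_le _ _) _))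

/-- The word of `f` of length `H` at `n` has at most `d` disagreements with a rotation word. -/
def Rot (f : ℕ → ℤ) (H : ℕ) (d : ℝ) (n : ℕ) : Prop :=
  ∃ t s : ℝ, (#{h ∈ range H | f (n + h) ≠ phi (t + h * s)} : ℝ) ≤ d

/-- The sign-change counts of the window at `n` are those of a rotation with slope norm `y`. -/
def Good (f : ℕ → ℤ) (H : ℕ) (d : ℝ) (n : ℕ) (y : ℝ) : Prop :=
  0 ≤ y ∧ y ≤ 1 / 2 ∧ ∀ q a M : ℕ, 1 ≤ q → a + q * M < H →
    |(chg (fun i => f (n + (a + q * i))) M : ℝ) - 2 * M * tau (q * y)| ≤ 1 + 2 * d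

lemma Rot.good {f : ℕ → ℤ} {H : ℕ} {d : ℝ} {n : ℕ} (h : Rot f H d n) :
    ∃ y, Good f H d n y := by
  obtain ⟨t, s, hd⟩ := h
  refine ⟨tau s, tau_nonneg s, tau_le_half s, ?_⟩
  intro q a M hq hM
  rw [tau_mul_tau]
  set w : ℕ → ℤ := fun i => f (n + (a + q * i)) with hw
  set w' : ℕ → ℤ := fun i => phi ((t + a * s) + i * (q * s)) with hw'
  have hrot := chg_rot (t + a * s) (q * s) M
  have heq : ∀ i : ℕ, w' i = phi (t + ((a + q * i : ℕ) : ℝ) * s) := by
    intro i
    rw [hw']
    show phi (t + a * s + i * (q * s)) = _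
    congr 1
    push_cast
    ring
  have c1 : #{i ∈ range M | w i ≠ w' i} ≤ #{h ∈ range H | f (n + h) ≠ phi (t + h * s)} := by
    apply card_le_card_of_injOn (fun i => a + q * i)
    · intro i hi
      simp only [coe_filter, mem_range, Set.mem_ofPred_eq] at hi ⊢
      refine ⟨?_, ?_⟩
      · have : q * i ≤ q * M := Nat.mul_le_mul_left q hi.1.le
        omega
      · rw [← heq]; exact hi.2
    · intro i _ j _ hij
      have : a + q * i = a + q * j := hij
      have h2 : q * i = q * j := by omega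
      exact Nat.eq_of_mul_eq_mul_left (by omega) h2
  have c2 : #{i ∈ range M | w (i + 1) ≠ w' (i + 1)}
      ≤ #{h ∈ range H | f (n + h) ≠ phi (t + h * s)} := by
    apply card_le_card_of_injOn (fun i => a + q * (i + 1))
    · intro i hi
      simp only [coe_filter, mem_range, Set.mem_ofPred_eq] at hi ⊢
      refine ⟨?_, ?_⟩
      · have : q * (i + 1) ≤ q * M := Nat.mul_le_mul_left q (by omega)
        omega
      · rw [← heq]; exact hi.2
    · intro i _ j _ hij
      have : a + q * (i + 1) = a + q * (j + 1) := hij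
      have h2 : q * (i + 1) = q * (j + 1) := by omega
      have := Nat.eq_of_mul_eq_mul_left (by omega) h2
      omega
  have c1' : #{i ∈ range M | w' i ≠ w i} ≤ #{h ∈ range H | f (n + h) ≠ phi (t + h * s)} := by
    refine le_trans (le_of_eq ?_) c1
    congr 1; apply filter_congr; intro i _; exact ne_comm
  have c2' : #{i ∈ range M | w' (i + 1) ≠ w (i + 1)}
      ≤ #{h ∈ range H | f (n + h) ≠ phi (t + h * s)} := by
    refine le_trans (le_of_eq ?_) c2
    congr 1; apply filter_congr; intro i _; exact ne_comm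
  have u1 := chg_le_add w w' M
  have u2 := chg_le_add w' w M
  set D := #{h ∈ range H | f (n + h) ≠ phi (t + h * s)} with hD
  have v1 : (chg w M : ℝ) ≤ chg w' M + 2 * D := by
    have : chg w M ≤ chg w' M + 2 * D := by omega
    exact_mod_cast this
  have v2 : (chg w' M : ℝ) ≤ chg w M + 2 * D := by
    have : chg w' M ≤ chg w M + 2 * D := by omega
    exact_mod_cast this
  rw [abs_le] at hrot ⊢
  obtain ⟨r1, r2⟩ := hrot
  constructor <;> linarith

/-- Multiplicativity transfers sign-change counts. -/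
lemma chg_mul {f : ℕ → ℤ} (hf : ∀ n, f n = 1 ∨ f n = -1)
    (hm : ∀ a b, a ≠ 0 → b ≠ 0 → f (a * b) = f a * f b)
    {q m b n a : ℕ} (hq : q ≠ 0) (hmb : m + b ≠ 0) (heq : n + a = q * (m + b)) (M : ℕ) :
    chg (fun i => f (n + (a + q * i))) M = chg (fun i => f (m + (b + 1 * i))) M := by
  unfold chg
  congr 1
  apply filter_congr
  intro i _
  have e : ∀ i, f (n + (a + q * i)) = f q * f (m + (b + 1 * i)) := by
    intro i
    have : n + (a + q * i) = q * (m + (b + 1 * i)) := by
      rw [← add_assoc, heq]; ring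
    rw [this, hm _ _ hq (by omega)]
  show (f (n + (a + q * i)) ≠ f (n + (a + q * (i + 1)))) ↔
    (f (m + (b + 1 * i)) ≠ f (m + (b + 1 * (i + 1))))
  rw [e i, e (i + 1)]
  rcases hf q with h | h
  · rw [h]; simp
  · rw [h]; simp

lemma Good.rel {f : ℕ → ℤ} (hf : ∀ n, f n = 1 ∨ f n = -1)
    (hm : ∀ a b, a ≠ 0 → b ≠ 0 → f (a * b) = f a * f b)
    {H H' : ℕ} {d d' : ℝ} {n m : ℕ} {y y' : ℝ} (h : Good f H d n y) (h' : Good f H' d' m y')
    {q a b M : ℕ} (hq : 1 ≤ q) (hmb : m + b ≠ 0) (heq : n + a = q * (m + b))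
    (h1 : a + q * M < H) (h2 : b + M < H') :
    |tau (q * y) - y'| * M ≤ 1 + d + d' := by
  obtain ⟨hy0, hy1, hy⟩ := h
  obtain ⟨hy0', hy1', hy'⟩ := h'
  have A := hy q a M hq h1
  have B := hy' 1 b M le_rfl (by omega)
  rw [chg_mul hf hm (by omega) hmb heq M] at A
  rw [Nat.cast_one, one_mul, tau_of_mem hy0' hy1'] at B
  have hM : (0 : ℝ) ≤ M := Nat.cast_nonneg M
  have : |tau (q * y) - y'| * (2 * M) ≤ 2 + 2 * d + 2 * d' := by
    rw [← abs_of_nonneg (by positivity : (0 : ℝ) ≤ 2 * M), ← abs_mul]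
    rw [abs_le] at A B ⊢
    obtain ⟨A1, A2⟩ := A
    obtain ⟨B1, B2⟩ := B
    constructor <;> linarith
  linarith

end Pool.Agent.helper937_rot
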