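import Pool.Agent.helper937_rot.Small

set_option autoImplicit false

namespace Pool.Agent.helper937_rot

open Finset
open scoped Classical

variable {f : ℕ → ℤ} {Hf : ℕ → ℕ} {df : ℕ → ℝ}

/-- there is a sign change in `[n, n + l]` -/
def VV (f : ℕ → ℤ) (n l : ℕ) : Prop := ∃ i, i < l ∧ f (n + i) ≠ f (n + i + 1)

lemma not_VV {n l : ℕ} (h : ¬ VV f n l) {k : ℕ} (hk : k ≤ l) : f (n + k) = f n := by
  unfold VV at h
  push Not at h
  induction k with
  | zero => rfl
  | succ k ih =>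
    rw [← ih (by omega), ← add_assoc]
    exact (h k (by omega)).symm

/-- good window, small slope, sign change nearby -/
def WW (f : ℕ → ℤ) (Hf : ℕ → ℕ) (df : ℕ → ℝ) (θ : ℝ) (l n : ℕ) : Prop :=
  G f Hf df n ∧ sig f Hf df n ≤ θ ∧ VV f n l

lemma block_count {θ D : ℝ} {l W B a : ℕ} (hl : 1 ≤ l) (hlB : l ≤ B) (hBW : 2 * B ≤ W)
    (hθ : 0 ≤ θ) (hD : 0 ≤ D) (T : Finset ℕ) (hT : ∀ n ∈ T, WW f Hf df θ l n)
    (hTb : ∀ n ∈ T, a ≤ n ∧ n < a + B) (hW : ∀ n ∈ T, W ≤ Hf n ∧ df n ≤ D) :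
    (#T : ℝ) ≤ l * (2 * W * θ + 1 + 2 * D) := by
  have hY : 0 ≤ 2 * (W : ℝ) * θ + 1 + 2 * D := by positivity
  rcases T.eq_empty_or_nonempty with rfl | hne
  · simp only [card_empty, Nat.cast_zero]; positivity
  set n₁ := T.min' hne with hn₁
  have hn₁T : n₁ ∈ T := T.min'_mem hne
  have hmin : ∀ n ∈ T, n₁ ≤ n := fun n hn => T.min'_le n hn
  set C := {i ∈ range (W - 1) | f (n₁ + i) ≠ f (n₁ + i + 1)} with hC
  obtain ⟨g1, g2, g3⟩ := hT n₁ hn₁T
  obtain ⟨hw1, hw2⟩ := hW n₁ hn₁T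
  have hCle : (#C : ℝ) ≤ 2 * W * θ + 1 + 2 * D := by
    have h := g1.spec.2.2 1 0 (W - 1) le_rfl (by omega)
    have e : chg (fun i => f (n₁ + (0 + 1 * i))) (W - 1) = #C := by
      unfold chg
      rw [hC]
      congr 1
      apply filter_congr
      intro i _
      show f (n₁ + (0 + 1 * i)) ≠ f (n₁ + (0 + 1 * (i + 1))) ↔ _
      rw [zero_add, one_mul, zero_add, one_mul, ← add_assoc]
    rw [e, Nat.cast_one, one_mul, tau_of_mem g1.nonneg g1.le_half] at h
    have h2 := (abs_le.mp h).2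
    have h3 : ((W - 1 : ℕ) : ℝ) ≤ W := by exact_mod_cast Nat.sub_le W 1
    have h4 : 2 * ((W - 1 : ℕ) : ℝ) * sig f Hf df n₁ ≤ 2 * W * θ := by
      have := g1.nonneg
      gcongr
    linarith
  -- map to change positions
  have hex : ∀ n ∈ T, ∃ i, i < l ∧ f (n + i) ≠ f (n + i + 1) := fun n hn => (hT n hn).2.2
  set g : ℕ → ℕ := fun n => if h : ∃ i, i < l ∧ f (n + i) ≠ f (n + i + 1) then
    n + h.choose - n₁ else 0 with hg
  have hgspec : ∀ n ∈ T, ∃ i, i < l ∧ f (n + i) ≠ f (n + i + 1) ∧ g n = n + i - n₁ := by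
    intro n hn
    have h := hex n hn
    refine ⟨h.choose, h.choose_spec.1, h.choose_spec.2, ?_⟩
    rw [hg]
    show (if h : ∃ i, i < l ∧ f (n + i) ≠ f (n + i + 1) then n + h.choose - n₁ else 0) = _
    rw [dif_pos h]
  have himg : image g T ⊆ C := by
    intro p hp
    rw [mem_image] at hp
    obtain ⟨n, hn, rfl⟩ := hp
    obtain ⟨i, hi, hne', he⟩ := hgspec n hn
    rw [he, hC, mem_filter, mem_range]
    have b1 := hTb n hn
    have b2 := hTb n₁ hn₁T
    have b3 := hmin n hn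
    have e : n₁ + (n + i - n₁) = n + i := by omega
    rw [e]
    exact ⟨by omega, hne'⟩
  have hfib : ∀ p ∈ image g T, #{n ∈ T | g n = p} ≤ l := by
    intro p _
    have : {n ∈ T | g n = p} ⊆ Icc (n₁ + p + 1 - l) (n₁ + p) := by
      intro n hn
      rw [mem_filter] at hn
      obtain ⟨i, hi, _, he⟩ := hgspec n hn.1
      have b3 := hmin n hn.1
      rw [mem_Icc]
      have := hn.2
      omega
    refine (card_le_card this).trans ?_
    rw [Nat.card_Icc]
    omega
  have h1 := card_le_mul_card_image T l hfib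
  have h2 : #T ≤ l * #C := h1.trans (Nat.mul_le_mul_left l (card_le_card himg))
  calc (#T : ℝ) ≤ l * #C := by exact_mod_cast h2
    _ ≤ _ := by gcongr

lemma change_count {θ D : ℝ} {l W x : ℕ} (hl : 1 ≤ l) (hlW : 2 * l ≤ W)
    (hθ : 0 ≤ θ) (hD : 0 ≤ D)
    (hW : ∀ n, n ≤ x → x < 2 * n → W ≤ Hf n ∧ df n ≤ D) :
    (cnt (WW f Hf df θ l) x : ℝ) ≤ (4 * x / W + 1) * (l * (2 * W * θ + 1 + 2 * D)) := by
  set B := W / 2 with hB
  have hB1 : 1 ≤ B := by omega
  have hY : 0 ≤ (l : ℝ) * (2 * (W : ℝ) * θ + 1 + 2 * D) := by positivity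
  set F := {n ∈ Ioc (x / 2) x | WW f Hf df θ l n} with hF
  have h1 : #F = ∑ b ∈ image (fun n => n / B) F, #{n ∈ F | n / B = b} :=
    card_eq_sum_card_image _ _
  have h2 : ∀ b ∈ image (fun n => n / B) F, (#{n ∈ F | n / B = b} : ℝ) ≤
      l * (2 * W * θ + 1 + 2 * D) := by
    intro b _
    apply block_count (f := f) (Hf := Hf) (df := df) (B := B) (a := b * B) hl (by omega)
      (by omega) hθ hD
    · intro n hn
      rw [mem_filter, hF, mem_filter] at hn
      exact hn.1.2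
    · intro n hn
      rw [mem_filter] at hn
      have e := hn.2
      have a1 := Nat.div_mul_le_self n B
      have a2 := Nat.lt_div_mul_add (a := n) (by omega : 0 < B)
      rw [e] at a1 a2
      exact ⟨a1, a2⟩
    · intro n hn
      rw [mem_filter, hF, mem_filter, mem_Ioc] at hn
      exact hW n hn.1.1.2 (by omega)
  have h3 : #(image (fun n => n / B) F) ≤ x / B + 1 := by
    have : image (fun n => n / B) F ⊆ range (x / B + 1) := by
      intro b hb
      rw [mem_image] at hb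
      obtain ⟨n, hn, rfl⟩ := hb
      rw [hF, mem_filter, mem_Ioc] at hn
      rw [mem_range]
      have := Nat.div_le_div_right (c := B) hn.1.2
      omega
    simpa using card_le_card this
  have h4 : ((x / B + 1 : ℕ) : ℝ) ≤ 4 * x / W + 1 := by
    push_cast
    have hBR : (0 : ℝ) < B := by exact_mod_cast hB1
    have hWB : (W : ℝ) ≤ 4 * B := by
      have : W ≤ 4 * B := by omega
      exact_mod_cast this
    have hWpos : (0 : ℝ) < W := by
      have : 0 < W := by omega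
      exact_mod_cast this
    have a1 : ((x / B : ℕ) : ℝ) ≤ (x : ℝ) / B := Nat.cast_div_le
    have a2 : (x : ℝ) / B ≤ 4 * x / W := by
      rw [div_le_div_iff₀ hBR hWpos]
      have : (0 : ℝ) ≤ x := Nat.cast_nonneg x
      nlinarith
    linarith
  have h5 : (#F : ℝ) = ∑ b ∈ image (fun n => n / B) F, (#{n ∈ F | n / B = b} : ℝ) := by
    exact_mod_cast h1
  have h6 : (cnt (WW f Hf df θ l) x : ℝ) = #F := rfl
  rw [h6, h5]
  calc ∑ b ∈ image (fun n => n / B) F, (#{n ∈ F | n / B = b} : ℝ)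
      ≤ ∑ b ∈ image (fun n => n / B) F, (l * (2 * W * θ + 1 + 2 * D) : ℝ) := sum_le_sum h2
    _ = #(image (fun n => n / B) F) * (l * (2 * W * θ + 1 + 2 * D)) := by
        rw [sum_const, nsmul_eq_mul]
    _ ≤ (4 * x / W + 1) * (l * (2 * W * θ + 1 + 2 * D)) := by
        apply mul_le_mul_of_nonneg_right _ hY
        refine le_trans ?_ h4
        exact_mod_cast h3

end Pool.Agent.helper937_rot
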