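import Pool.Agent.helper937_rot.Basic

set_option autoImplicit false

namespace Pool.Agent.helper937_rot

open Finset
open scoped Classical

/-- ceiling division -/
def ce (n q : ℕ) : ℕ := (n + q - 1) / q

/-- `n + n/K` -/
def up (K n : ℕ) : ℕ := n + n / K

/-- number of `n` in `(x/2, x]` with property `A` -/
noncomputable def cnt (A : ℕ → Prop) (x : ℕ) : ℕ := #{n ∈ Ioc (x / 2) x | A n}

lemma le_mul_ce {n q : ℕ} (hq : 1 ≤ q) : n ≤ q * ce n q := by
  unfold ce
  have := Nat.div_add_mod (n + q - 1) q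
  have h2 := Nat.mod_lt (n + q - 1) (by omega : 0 < q)
  omega

lemma mul_ce_lt {n q : ℕ} (hq : 1 ≤ q) : q * ce n q < n + q := by
  unfold ce
  have := Nat.mul_div_le (n + q - 1) q
  omega

lemma ce_mono {n n' q : ℕ} (h : n ≤ n') : ce n q ≤ ce n' q := by
  unfold ce
  exact Nat.div_le_div_right (by omega)

lemma ce_pos {n q : ℕ} (hq : 1 ≤ q) (hn : 1 ≤ n) : 1 ≤ ce n q := by
  have h1 := le_mul_ce (n := n) hq
  by_contra h
  have h0 : ce n q = 0 := by omega
  rw [h0] at h1
  omega

lemma up_strictMono (K : ℕ) : StrictMono (up K) := by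
  intro a b hab
  show a + a / K < b + b / K
  have := Nat.div_le_div_right (c := K) hab.le
  omega

lemma le_up (K n : ℕ) : n ≤ up K n := Nat.le_add_right n (n / K)

lemma up_le (K n : ℕ) : up K n ≤ 2 * n := by
  show n + n / K ≤ 2 * n
  have := Nat.div_le_self n K
  omega

lemma up_eq_self {K n : ℕ} (h : n < K) : up K n = n := by
  unfold up
  rw [Nat.div_eq_of_lt h, add_zero]

lemma cnt_ce (A : ℕ → Prop) (x : ℕ) {q : ℕ} (hq : 1 ≤ q) :
    #{n ∈ Ioc (x / 2) x | A (ce n q)} ≤ q * (cnt A (ce x q) + 1) := by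
  have h1 : ∀ a ∈ image (fun n => ce n q) {n ∈ Ioc (x / 2) x | A (ce n q)},
      #{n ∈ {n ∈ Ioc (x / 2) x | A (ce n q)} | ce n q = a} ≤ q := by
    intro a _
    have : {n ∈ {n ∈ Ioc (x / 2) x | A (ce n q)} | ce n q = a} ⊆ Ioc (q * a - q) (q * a) := by
      intro n hn
      simp only [mem_filter, mem_Ioc] at hn ⊢
      have e := hn.2
      have h1 := le_mul_ce (n := n) hq
      have h2 := mul_ce_lt (n := n) hq
      rw [e] at h1 h2
      have : 0 < n := by omega
      omega
    refine (card_le_card this).trans ?_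
    rw [Nat.card_Ioc]
    omega
  have h2 := card_le_mul_card_image {n ∈ Ioc (x / 2) x | A (ce n q)} q h1
  refine h2.trans (Nat.mul_le_mul_left q ?_)
  have h3 : image (fun n => ce n q) {n ∈ Ioc (x / 2) x | A (ce n q)} ⊆
      insert (ce x q / 2) {m ∈ Ioc (ce x q / 2) (ce x q) | A m} := by
    intro m hm
    simp only [mem_image, mem_filter, mem_Ioc] at hm
    obtain ⟨n, ⟨⟨hn1, hn2⟩, hA⟩, rfl⟩ := hm
    simp only [mem_insert, mem_filter, mem_Ioc]
    have a1 : ce n q ≤ ce x q := ce_mono hn2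
    have a2 : ce x q ≤ 2 * ce n q := by
      have b1 := le_mul_ce (n := n) hq
      have b2 := mul_ce_lt (n := x) hq
      have b3 : x < 2 * n := by omega
      have b4 : q * ce x q < 2 * (q * ce n q) + q := by omega
      have b5 : q * ce x q < q * (2 * ce n q + 1) := by
        calc q * ce x q < 2 * (q * ce n q) + q := b4
          _ = q * (2 * ce n q + 1) := by ring
      have := Nat.lt_of_mul_lt_mul_left b5
      omega
    by_cases hc : ce x q / 2 < ce n q
    · right; exact ⟨⟨hc, a1⟩, hA⟩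
    · left; omega
  exact (card_le_card h3).trans (card_insert_le _ _)

lemma cnt_up (A : ℕ → Prop) (x K : ℕ) :
    #{n ∈ Ioc (x / 2) x | A (up K n)} ≤ cnt A x + cnt A (2 * x) := by
  have h1 : #{n ∈ Ioc (x / 2) x | A (up K n)} ≤
      #({n ∈ Ioc (x / 2) x | A n} ∪ {n ∈ Ioc (2 * x / 2) (2 * x) | A n}) := by
    apply card_le_card_of_injOn (up K)
    · intro n hn
      simp only [coe_filter, mem_Ioc, Set.mem_ofPred_eq, coe_union, Set.mem_union] at hn ⊢
      have := le_up K n
      have := up_le K n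
      have e : 2 * x / 2 = x := by omega
      rw [e]
      by_cases hc : up K n ≤ x
      · left; exact ⟨⟨by omega, hc⟩, hn.2⟩
      · right; exact ⟨⟨by omega, by omega⟩, hn.2⟩
    · exact (up_strictMono K).injective.injOn
  exact h1.trans (card_union_le _ _)

lemma cnt_ce_up (A : ℕ → Prop) (x K : ℕ) {q : ℕ} (hq : 1 ≤ q) :
    #{n ∈ Ioc (x / 2) x | A (up K (ce n q))} ≤
      q * (cnt A (ce x q) + cnt A (2 * ce x q) + 1) := by
  refine (cnt_ce (fun m => A (up K m)) x hq).trans (Nat.mul_le_mul_left q ?_)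
  exact Nat.add_le_add_right (cnt_up A (ce x q) K) 1

lemma cnt_le_self (A : ℕ → Prop) (x : ℕ) : cnt A x ≤ x := by
  unfold cnt
  refine (card_filter_le _ _).trans ?_
  rw [Nat.card_Ioc]; omega

lemma cnt_mono {A A' : ℕ → Prop} {x : ℕ} (h : ∀ n, n ≤ x → x < 2 * n → A n → A' n) :
    cnt A x ≤ cnt A' x := by
  unfold cnt
  apply card_le_card
  intro n hn
  simp only [mem_filter, mem_Ioc] at hn ⊢
  exact ⟨hn.1, h n hn.1.2 (by omega) hn.2⟩

/-- Double counting. -/
lemma double_count (F S : Finset ℕ) (P : ℕ → ℕ → Prop) (e : ℕ → Prop) (k : ℕ)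
    (h : ∀ n ∈ F, e n ∨ #S ≤ #{q ∈ S | P n q} + k) :
    #S * #F ≤ #S * #{n ∈ F | e n} + k * #F + ∑ q ∈ S, #{n ∈ F | P n q} := by
  have h1 : ∑ q ∈ S, #{n ∈ F | P n q} = ∑ n ∈ F, #{q ∈ S | P n q} := by
    simp_rw [card_filter]
    rw [sum_comm]
  rw [h1]
  have h2 : ∀ n ∈ F, #S ≤ #S * (if e n then 1 else 0) + k + #{q ∈ S | P n q} := by
    intro n hn
    rcases h n hn with h | h
    · rw [if_pos h]; omega
    · split_ifs <;> omega
  calc #S * #F = ∑ n ∈ F, #S := by rw [sum_const, smul_eq_mul, mul_comm]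
    _ ≤ ∑ n ∈ F, (#S * (if e n then 1 else 0) + k + #{q ∈ S | P n q}) := sum_le_sum h2
    _ = #S * #{n ∈ F | e n} + k * #F + ∑ n ∈ F, #{q ∈ S | P n q} := by
        rw [sum_add_distrib, sum_add_distrib, ← mul_sum, ← card_filter, sum_const, smul_eq_mul,
          mul_comm (#F) k]

/-- The abstract recursion over scales. -/
lemma scale_recursion (A : ℕ → Prop) (K X₁ : ℕ) (ε₀ : ℝ) (Q : ℕ → ℕ) (v : ℕ → ℝ)
    (hε₀ : 0 ≤ ε₀) (hv : ∀ j, 0 ≤ v j) (hK : 4 ≤ K)
    (hbase : ∀ x, X₁ ≤ x → x < K → (cnt A x : ℝ) ≤ ε₀ * x)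
    (hrec : ∀ x, K ≤ x → ∃ S : Finset ℕ, S.Nonempty ∧
      (∀ q ∈ S, 5 ≤ q ∧ q ≤ Q (Nat.log 2 x) ∧ X₁ ≤ ce x q) ∧
      (#S : ℝ) * cnt A x ≤ ∑ q ∈ S, (q : ℝ) * cnt A (ce x q) + #S * (v (Nat.log 2 x) * x))
    (J : ℕ → ℝ) (hJ : ∀ j, Nat.log 2 K ≤ j → J j = ∑ i ∈ Icc (Nat.log 2 K) j,
      (v i + Q i / 2 ^ i)) (hJ1 : ∀ j, Nat.log 2 K ≤ j → ε₀ + J j ≤ 1) :
    ∀ x, X₁ ≤ x → (cnt A x : ℝ) ≤ (ε₀ + if K ≤ x then J (Nat.log 2 x) else 0) * x := by
  have hJ0 : ∀ j, Nat.log 2 K ≤ j → 0 ≤ J j := by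
    intro j hj
    rw [hJ j hj]
    apply sum_nonneg
    intro i _
    have := hv i
    positivity
  intro x
  induction x using Nat.strong_induction_on with
  | _ x ih =>
    intro hX
    by_cases hxK : K ≤ x
    swap
    · rw [if_neg hxK, add_zero]
      exact hbase x hX (by omega)
    rw [if_pos hxK]
    set j := Nat.log 2 x with hj
    have hjK : Nat.log 2 K ≤ j := Nat.log_mono_right hxK
    obtain ⟨S, hne, hS, hle⟩ := hrec x hxK
    -- bound on the predecessor scales
    set B : ℝ := ε₀ + (J j - (v j + Q j / 2 ^ j)) with hB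
    have hJsplit : J j - (v j + Q j / 2 ^ j) = ∑ i ∈ Ico (Nat.log 2 K) j,
      (v i + (Q i : ℝ) / 2 ^ i) := by
      rw [hJ j hjK, ← Finset.sum_Ico_add_eq_sum_Icc hjK]
      ring
    have hB0 : 0 ≤ J j - (v j + Q j / 2 ^ j) := by
      rw [hJsplit]
      apply sum_nonneg
      intro i _
      have := hv i
      positivity
    have hB1 : B ≤ 1 := by
      have := hJ1 j hjK
      have h0 := hv j
      have : (0 : ℝ) ≤ (Q j : ℝ) / 2 ^ j := by positivity
      rw [hB]; linarith
    have hpred : ∀ q ∈ S, (cnt A (ce x q) : ℝ) ≤ B * ce x q := by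
      intro q hq
      obtain ⟨h5, _, hX1⟩ := hS q hq
      have hlt : 2 * ce x q ≤ x := by
        have h1 := mul_ce_lt (n := x) (q := q) (by omega)
        have h2 : 5 * ce x q ≤ q * ce x q := Nat.mul_le_mul_right _ h5
        by_contra hc
        push Not at hc
        have h4 : x + 1 ≤ 2 * ce x q := hc
        have h6 : 3 ≤ ce x q := by omega
        have h7 : 5 * (ce x q - 1) ≤ q * (ce x q - 1) := Nat.mul_le_mul_right _ h5
        have h8 : q * (ce x q - 1) < x := by
          have : q * (ce x q - 1) + q = q * ce x q := by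
            rw [Nat.mul_sub_one]
            have : q ≤ q * ce x q := Nat.le_mul_of_pos_right _ (by omega)
            omega
          omega
        omega
      have hltx : ce x q < x := by
        have : 0 < x := by omega
        omega
      have := ih (ce x q) hltx hX1
      refine this.trans ?_
      have hc0 : (0 : ℝ) ≤ ce x q := Nat.cast_nonneg _
      apply mul_le_mul_of_nonneg_right _ hc0
      by_cases hKc : K ≤ ce x q
      · rw [if_pos hKc]
        have hjj : Nat.log 2 (ce x q) + 1 ≤ j := by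
          have : Nat.log 2 (ce x q * 2) ≤ Nat.log 2 x := Nat.log_mono_right (by omega)
          rw [Nat.log_mul_base (by norm_num) (by omega)] at this
          exact this
        have hjK' : Nat.log 2 K ≤ Nat.log 2 (ce x q) := Nat.log_mono_right hKc
        rw [hB, hJsplit, hJ _ hjK']
        have hsub : Icc (Nat.log 2 K) (Nat.log 2 (ce x q)) ⊆ Ico (Nat.log 2 K) j := by
          intro i hi
          rw [mem_Icc] at hi
          rw [mem_Ico]
          omega
        have := sum_le_sum_of_subset_of_nonneg (f := fun i => v i + (Q i : ℝ) / 2 ^ i) hsub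
          (fun i _ _ => by have := hv i; positivity)
        linarith
      · rw [if_neg hKc, hB]
        linarith
    have hSpos : (0 : ℝ) < #S := by exact_mod_cast hne.card_pos
    have hsum : ∑ q ∈ S, (q : ℝ) * cnt A (ce x q) ≤ #S * (B * x + Q j) := by
      rw [← nsmul_eq_mul, ← sum_const]
      apply sum_le_sum
      intro q hq
      obtain ⟨h5, hQ, _⟩ := hS q hq
      have h1 := hpred q hq
      have hB0' : 0 ≤ B := by rw [hB]; linarith
      have h2 : (q : ℝ) * ce x q ≤ x + q := by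
        have := mul_ce_lt (n := x) (q := q) (by omega)
        have : q * ce x q ≤ x + q := this.le
        exact_mod_cast this
      calc (q : ℝ) * cnt A (ce x q) ≤ q * (B * ce x q) := by gcongr
        _ = B * (q * ce x q) := by ring
        _ ≤ B * (x + q) := by gcongr
        _ = B * x + B * q := by ring
        _ ≤ B * x + Q j := by
            have : B * (q : ℝ) ≤ 1 * Q j := by
              apply mul_le_mul hB1 (by exact_mod_cast hQ) (by positivity) zero_le_one
            linarith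
    have hfin : (#S : ℝ) * cnt A x ≤ #S * (B * x + Q j + v j * x) := by
      calc (#S : ℝ) * cnt A x ≤ _ := hle
        _ ≤ #S * (B * x + Q j) + #S * (v j * x) := by linarith
        _ = _ := by ring
    have h3 : (cnt A x : ℝ) ≤ B * x + Q j + v j * x := le_of_mul_le_mul_left hfin hSpos
    have h4 : (Q j : ℝ) ≤ Q j / 2 ^ j * x := by
      have h5 : (2 : ℝ) ^ j ≤ x := by
        have := Nat.pow_log_le_self 2 (by omega : x ≠ 0)
        exact_mod_cast this
      rw [div_mul_eq_mul_div, le_div_iff₀ (by positivity)]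
      gcongr
    calc (cnt A x : ℝ) ≤ B * x + Q j + v j * x := h3
      _ ≤ B * x + Q j / 2 ^ j * x + v j * x := by linarith
      _ = (ε₀ + J j) * x := by rw [hB]; ring

end Pool.Agent.helper937_rot
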