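import Pool.Agent.helper937_rot.Phase

set_option autoImplicit false

namespace Pool.Agent.helper937_rot

open Finset
open scoped Classical

variable {f : ℕ → ℤ} {Hf : ℕ → ℕ} {df : ℕ → ℝ} {J₀ : ℕ} {Q M : ℕ → ℕ} {D ε R β θ : ℕ → ℝ}

lemma Par.ce_low (P : Par f Hf df J₀ Q M D ε R β) {x q : ℕ}
    (hx : J₀ ≤ Nat.log 2 x) (hq1 : 1 ≤ q) (hq : q ≤ Q (Nat.log 2 x)) :
    2 * 2 ^ (Nat.log 2 x / 2) ≤ ce x q := by
  set j := Nat.log 2 x with hj
  have hJ2 := P.J2
  have hx0 : x ≠ 0 := by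
    rintro rfl
    simp at hj
    omega
  have h2j : 2 ^ j ≤ x := by rw [hj]; exact Nat.pow_log_le_self 2 hx0
  have h1 := le_mul_ce (n := x) hq1
  have h3 := P.Qsmall j hx
  have h4 : Q j * (2 * 2 ^ (j / 2)) ≤ Q j * ce x q := by
    calc Q j * (2 * 2 ^ (j / 2)) = 2 * Q j * 2 ^ (j / 2) := by ring
      _ ≤ 2 ^ j := h3
      _ ≤ x := h2j
      _ ≤ q * ce x q := h1
      _ ≤ Q j * ce x q := Nat.mul_le_mul_right _ hq
  have := P.Q5 j hx
  exact Nat.le_of_mul_le_mul_left h4 (by omega)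

lemma Par2.A_small (P : Par2 f Hf df J₀ Q M D ε R β θ) :
    ∃ J X₁, ∀ K, J ≤ Nat.log 2 K → ∀ x, X₁ ≤ x →
      (cnt (AA f Hf df θ K) x : ℝ) ≤ 1 / 50 * x := by
  obtain ⟨X₁, hX₁⟩ := P.slope_zero (η := 1 / 100) (by norm_num)
  set v : ℕ → ℝ := fun j => 4 * β j + 1 / #(prm (Q j)) + 2 * Q j / 2 ^ j + 2000 * θ j with hv
  have hv0 : ∀ j, 0 ≤ v j := by
    intro j
    have := P.β0 j
    have := P.θ0 j
    rw [hv]
    positivity
  have hw0 : ∀ j, 0 ≤ v j + (Q j : ℝ) / 2 ^ j := by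
    intro j
    have := hv0 j
    positivity
  have hsum : Summable fun j => v j + (Q j : ℝ) / 2 ^ j := by
    refine Summable.add (Summable.add (Summable.add (Summable.add (P.sβ.mul_left 4) P.sP) ?_)
      (P.sθ.mul_left 2000)) P.sQ
    refine (P.sQ.mul_left 2).congr ?_
    intro j
    rw [mul_div_assoc]
  obtain ⟨J, hJ⟩ := tail_small hw0 hsum (show (0 : ℝ) < 1 / 100 by norm_num)
  refine ⟨max (max J J₀) (2 * X₁ + 2), X₁, ?_⟩
  intro K hK
  have hJK : J ≤ Nat.log 2 K := le_trans (le_trans (le_max_left _ _) (le_max_left _ _)) hK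
  have hJ0K : J₀ ≤ Nat.log 2 K := le_trans (le_trans (le_max_right _ _) (le_max_left _ _)) hK
  have hXK : 2 * X₁ + 2 ≤ Nat.log 2 K := le_trans (le_max_right _ _) hK
  have hK4 : 4 ≤ K := by
    have h2 : 2 ≤ Nat.log 2 K := P.J2.trans hJ0K
    have hK0 : K ≠ 0 := by
      rintro rfl
      simp at h2
    have := Nat.pow_le_of_le_log hK0 h2
    simpa using this
  have main := scale_recursion (AA f Hf df θ K) K X₁ (1 / 100) Q v (by norm_num) hv0 hK4
    (by
      intro z hz1 hz2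
      refine le_trans ?_ (hX₁ z hz1)
      have : cnt (AA f Hf df θ K) z ≤ cnt (NS f Hf df θ) z := by
        apply cnt_mono
        intro n hn1 hn2 hA
        unfold AA GG at hA
        unfold NS
        rw [up_eq_self (by omega : n < K)] at hA
        intro hc
        exact hA ⟨hc.1, hc.1, hc.2, hc.2, rfl⟩
      exact_mod_cast this)
    (by
      intro z hz
      have hlog : J₀ ≤ Nat.log 2 z := hJ0K.trans (Nat.log_mono_right hz)
      refine ⟨prm (Q (Nat.log 2 z)), prm_nonempty (P.Q5 _ hlog), ?_, ?_⟩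
      · intro q hq
        have hq' := mem_prm.mp hq
        refine ⟨hq'.1.1, hq'.1.2, ?_⟩
        have h1 := P.toPar.ce_low hlog (by omega) hq'.1.2
        have h2 : 2 * X₁ + 2 ≤ Nat.log 2 z := hXK.trans (Nat.log_mono_right hz)
        have h3 : 2 ^ X₁ ≤ 2 ^ (Nat.log 2 z / 2) := Nat.pow_le_pow_right (by norm_num) (by omega)
        have h4 : X₁ < 2 ^ X₁ := Nat.lt_two_pow_self
        omega
      · exact P.rec_A (by omega) hlog)
    (fun j => ∑ i ∈ Icc (Nat.log 2 K) j, (v i + (Q i : ℝ) / 2 ^ i))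
    (fun j _ => rfl)
    (by
      intro j _
      have := hJ (Nat.log 2 K) j hJK
      linarith)
  intro x hx
  refine (main x hx).trans ?_
  apply mul_le_mul_of_nonneg_right _ (Nat.cast_nonneg x)
  split_ifs
  · have := hJ (Nat.log 2 K) (Nat.log 2 x) hJK
    linarith
  · norm_num

lemma Par2.succ_eq (P : Par2 f Hf df J₀ Q M D ε R β θ) :
    ∃ J, ∀ K, J ≤ Nat.log 2 K → f K = f (K + 1) := by
  obtain ⟨J, X₁, hA⟩ := P.A_small
  refine ⟨max J 1, fun K hK => ?_⟩
  have hK1 : 1 ≤ K := by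
    by_contra hc
    have : K = 0 := by omega
    subst this
    simp at hK
  obtain ⟨Ja, hJa⟩ := P.Qinf (K + 1)
  have hθ0 : ∃ Jc, ∀ j, Jc ≤ j → θ j ≤ 1 / (22000 * K) := by
    have hpos : (0 : ℝ) < 1 / (22000 * K) := by
      have : (0 : ℝ) < K := by exact_mod_cast hK1
      positivity
    have := P.sθ.tendsto_atTop_zero
    have := this.eventually (Iic_mem_nhds hpos)
    rw [Filter.eventually_atTop] at this
    obtain ⟨a, ha⟩ := this
    exact ⟨a, fun j hj => ha j hj⟩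
  obtain ⟨Jc, hJc⟩ := hθ0
  set j := Ja + Jc + J₀ + X₁ with hj
  set x := 2 ^ j with hx
  have hlx : Nat.log 2 x = j := by rw [hx, Nat.log_pow (by norm_num)]
  have hxX : X₁ ≤ x := by
    have : j < 2 ^ j := Nat.lt_two_pow_self
    omega
  have hJ0j : J₀ ≤ j := by omega
  have h2j : 2 * 2 ^ (j / 2) ≤ x := by
    calc 2 * 2 ^ (j / 2) ≤ 2 * Q j * 2 ^ (j / 2) := by
          apply Nat.mul_le_mul_right
          have := P.Q5 j hJ0j
          omega
      _ ≤ 2 ^ j := P.Qsmall j hJ0j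
  have hQK := hJa j (by omega)
  have hθK := hJc j (by omega)
  have hx4 : x < 2 ^ (j + 2) := by
    rw [hx]; exact Nat.pow_lt_pow_right (by norm_num) (by omega)
  have hx4' : 2 * x < 2 ^ (j + 2) := by
    have : 2 * x = 2 ^ (j + 1) := by rw [hx]; ring
    rw [this]; exact Nat.pow_lt_pow_right (by norm_num) (by omega)
  have hθ0 := P.θ0 j
  have c1 := P.cntW (z := x) (l := K) (τ := 5 * θ j) hJ0j h2j hx4 hK1 (by omega) (by positivity)
  have c2 := P.cntW (z := 2 * x) (l := K) (τ := 5 * θ j) hJ0j (by omega) hx4' hK1 (by omega)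
    (by positivity)
  obtain ⟨_, dw2⟩ := P.DW hJ0j
  set δ := (1 + 2 * D j) / ((Q j * (M j + 4) : ℕ) : ℝ) with hδ
  have hAx := hA K (le_trans (le_max_left _ _) hK) x hxX
  have hKR : (0 : ℝ) < K := by exact_mod_cast hK1
  have hxR : (0 : ℝ) < x := by
    have : 0 < x := by rw [hx]; positivity
    exact_mod_cast this
  have hθK' : K * θ j ≤ 1 / 22000 := by
    calc (K : ℝ) * θ j ≤ K * (1 / (22000 * K)) := by gcongr
      _ = 1 / 22000 := by field_simp
  have hB : (2 * (5 * θ j) + δ) ≤ 11 * θ j := by linarith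
  have d1 : (cnt (WW f Hf df (5 * θ j) K) x : ℝ) ≤ 1 / 400 * x := by
    refine c1.trans ?_
    calc 5 * (x : ℝ) * K * (2 * (5 * θ j) + δ) ≤ 5 * x * K * (11 * θ j) := by gcongr
      _ = 55 * (K * θ j) * x := by ring
      _ ≤ 55 * (1 / 22000) * x := by gcongr
      _ = _ := by ring
  have d2 : (cnt (WW f Hf df (5 * θ j) K) (2 * x) : ℝ) ≤ 1 / 200 * x := by
    refine c2.trans ?_
    push_cast
    calc 5 * (2 * (x : ℝ)) * K * (2 * (5 * θ j) + δ) ≤ 5 * (2 * x) * K * (11 * θ j) := by gcongr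
      _ = 110 * (K * θ j) * x := by ring
      _ ≤ 110 * (1 / 22000) * x := by gcongr
      _ = _ := by ring
  -- find n
  have hex : ∃ n, n ≤ x ∧ x < 2 * n ∧ ¬ AA f Hf df θ K n ∧ ¬ WW f Hf df (5 * θ j) K n ∧
      ¬ WW f Hf df (5 * θ j) K (up K n) := by
    by_contra hcon
    push Not at hcon
    have hcov : Ioc (x / 2) x ⊆ {n ∈ Ioc (x / 2) x | AA f Hf df θ K n} ∪
        ({n ∈ Ioc (x / 2) x | WW f Hf df (5 * θ j) K n} ∪
        {n ∈ Ioc (x / 2) x | WW f Hf df (5 * θ j) K (up K n)}) := by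
      intro n hn
      rw [mem_Ioc] at hn
      simp only [mem_union, mem_filter, mem_Ioc]
      by_cases h1 : AA f Hf df θ K n
      · left; exact ⟨hn, h1⟩
      · by_cases h2 : WW f Hf df (5 * θ j) K n
        · right; left; exact ⟨hn, h2⟩
        · right; right; exact ⟨hn, hcon n hn.2 (by omega) h1 h2⟩
    have h1 := card_le_card hcov
    have h2 : #(Ioc (x / 2) x) ≤ cnt (AA f Hf df θ K) x + (cnt (WW f Hf df (5 * θ j) K) x +
        (cnt (WW f Hf df (5 * θ j) K) x + cnt (WW f Hf df (5 * θ j) K) (2 * x))) := by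
      refine h1.trans ((card_union_le _ _).trans (Nat.add_le_add le_rfl ?_))
      exact (card_union_le _ _).trans (Nat.add_le_add le_rfl (cnt_up _ x K))
    rw [Nat.card_Ioc] at h2
    have h3 : x ≤ 2 * (x - x / 2) := by omega
    have h4 : (x : ℝ) ≤ 2 * (x - x / 2 : ℕ) := by exact_mod_cast h3
    have h5 : ((x - x / 2 : ℕ) : ℝ) ≤ cnt (AA f Hf df θ K) x + (cnt (WW f Hf df (5 * θ j) K) x +
        (cnt (WW f Hf df (5 * θ j) K) x + cnt (WW f Hf df (5 * θ j) K) (2 * x))) := by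
      exact_mod_cast h2
    linarith
  obtain ⟨n, hn1, hn2, hA, hW1, hW2⟩ := hex
  unfold AA at hA
  push Not at hA
  obtain ⟨g1, g2, s1, s2, hff⟩ := hA
  have hn : 1 ≤ n := by omega
  obtain ⟨l5, l6⟩ := log_n hn1 hn2
  rw [hlx] at l5 l6
  obtain ⟨u1, u2⟩ := log_up (K := K) hn
  have hJ2 := P.J2
  have t1 := P.θ_lo j hJ0j (Nat.log 2 n) (by omega) (by omega)
  have t2 := P.θ_lo j hJ0j (Nat.log 2 (up K n)) (by omega) (by omega)
  have hθa := P.θ_anti j (j + 1) (by omega)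
  have hθ1 := P.θ0 (j + 1)
  have V1 : ¬ VV f n K := fun hV => hW1 ⟨g1, by linarith, hV⟩
  have V2 : ¬ VV f (up K n) K := fun hV => hW2 ⟨g2, by linarith, hV⟩
  have a1 := le_mul_ce (n := n) hK1
  have a2 := mul_ce_lt (n := n) hK1
  obtain ⟨c3, c4⟩ := up_ce_self (K := K) (n := n) hK1 hn
  have hcp := ce_pos (n := n) hK1 hn
  have e1 : f (K * ce n K) = f n := by
    have := not_VV V1 (k := K * ce n K - n) (by omega)
    rwa [show n + (K * ce n K - n) = K * ce n K by omega] at this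
  have e2 : f ((K + 1) * ce n K) = f (up K n) := by
    have := not_VV V2 (k := (K + 1) * ce n K - up K n) (by omega)
    rwa [show up K n + ((K + 1) * ce n K - up K n) = (K + 1) * ce n K by omega] at this
  rw [P.hm _ _ (by omega) (by omega)] at e1 e2
  rcases P.hf (ce n K) with h | h
  · rw [h] at e1 e2; omega
  · rw [h] at e1 e2; omega

lemma Par2.contra (P : Par2 f Hf df J₀ Q M D ε R β θ) (h2 : f 2 = -1) : False := by
  obtain ⟨J, hJ⟩ := P.succ_eq
  set K := 2 ^ J with hK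
  have hKpos : 0 < K := by rw [hK]; positivity
  have hc : ∀ i, f (K + i) = f K := by
    intro i
    induction i with
    | zero => rfl
    | succ i ih =>
      have : J ≤ Nat.log 2 (K + i) := by
        calc J = Nat.log 2 K := by rw [hK, Nat.log_pow (by norm_num)]
          _ ≤ _ := Nat.log_mono_right (by omega)
      rw [← ih, hJ _ this]
      rfl
  have h3 := hc K
  rw [show K + K = 2 * K by ring, P.hm _ _ (by norm_num) (by omega), h2] at h3
  rcases P.hf K with h | h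
  · rw [h] at h3; omega
  · rw [h] at h3; omega

end Pool.Agent.helper937_rot
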