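import Pool.Agent.helper937_rot.Asym

set_option autoImplicit false

namespace Pool.Agent.helper937_rot

open Finset Filter
open scoped Classical

noncomputable def Qs (δ : ℝ) (j : ℕ) : ℕ := ⌊((j : ℝ) + 1) ^ (1 + δ / 8)⌋₊
noncomputable def θs (δ : ℝ) (j : ℕ) : ℝ := ((j : ℝ) + 1) ^ (-(1 + δ / 4))
noncomputable def Rs (δ : ℝ) (j : ℕ) : ℝ := ((j : ℝ) + 1) ^ (-(1 + δ / 2))
noncomputable def εs (δ : ℝ) (j : ℕ) : ℝ := Rs δ (j + 1) / 4
noncomputable def Ds (b : ℝ) (j : ℕ) : ℝ := ((j : ℝ) + 2) ^ b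
noncomputable def Ms (b δ : ℝ) (j : ℕ) : ℕ := ⌈(1 + 2 * Ds b j) / εs δ j⌉₊
noncomputable def HH (b δ : ℝ) (z : ℕ) : ℕ := ⌈((Nat.log 2 z : ℕ) : ℝ) ^ (b + 2 + δ)⌉₊
noncomputable def dd (b : ℝ) (z : ℕ) : ℝ := ((Nat.log 2 z : ℕ) : ℝ) ^ b
noncomputable def βs (E : ℕ → ℝ) (j : ℕ) : ℝ := 3 / 2 * E (j / 2 - 1)

lemma neg_pow_anti {a : ℝ} (ha : 0 ≤ a) {i j : ℕ} (h : i ≤ j) :
    ((j : ℝ) + 1) ^ (-a) ≤ ((i : ℝ) + 1) ^ (-a) := by
  apply Real.rpow_le_rpow_of_nonpos (by positivity) _ (by linarith)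
  have : (i : ℝ) ≤ j := by exact_mod_cast h
  linarith

lemma pow_lo {a : ℝ} (ha : 0 ≤ a) (ha2 : a ≤ 3 / 2) {i j : ℕ} (hj : 3 ≤ j) (h : j / 2 ≤ i) :
    ((i : ℝ) + 1) ^ (-a) ≤ 9 / 2 * (((j + 1 : ℕ) : ℝ) + 1) ^ (-a) := by
  have h1 : (((j + 1 : ℕ) : ℝ) + 1) ≤ 5 / 2 * ((i : ℝ) + 1) := by
    have : 2 * (j + 2) ≤ 5 * (i + 1) := by omega
    have h2 : (2 : ℝ) * (j + 2) ≤ 5 * (i + 1) := by exact_mod_cast this
    push_cast
    linarith
  have hi : (0 : ℝ) < (i : ℝ) + 1 := by positivity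
  have hj' : (0 : ℝ) < ((j + 1 : ℕ) : ℝ) + 1 := by positivity
  have h3 : (((j + 1 : ℕ) : ℝ) + 1) ^ a ≤ 9 / 2 * ((i : ℝ) + 1) ^ a := by
    calc (((j + 1 : ℕ) : ℝ) + 1) ^ a ≤ (5 / 2 * ((i : ℝ) + 1)) ^ a :=
          Real.rpow_le_rpow hj'.le h1 ha
      _ = (5 / 2) ^ a * ((i : ℝ) + 1) ^ a := Real.mul_rpow (by norm_num) hi.le
      _ ≤ 9 / 2 * ((i : ℝ) + 1) ^ a := by
          apply mul_le_mul_of_nonneg_right _ (by positivity)
          have e1 : ((5 : ℝ) / 2) ^ a ≤ (5 / 2) ^ ((3 : ℝ) / 2) :=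
            Real.rpow_le_rpow_of_exponent_le (by norm_num) ha2
          refine e1.trans ?_
          have e2 : (((5 : ℝ) / 2) ^ ((3 : ℝ) / 2)) ^ 2 = (5 / 2) ^ 3 := by
            rw [← Real.rpow_natCast, ← Real.rpow_mul (by norm_num)]
            norm_num
          have e3 : 0 ≤ ((5 : ℝ) / 2) ^ ((3 : ℝ) / 2) := by positivity
          by_contra hc
          push Not at hc
          nlinarith
  rw [Real.rpow_neg hi.le, Real.rpow_neg hj'.le]
  have p1 : 0 < ((i : ℝ) + 1) ^ a := by positivity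
  have p2 : 0 < (((j + 1 : ℕ) : ℝ) + 1) ^ a := by positivity
  rw [← one_div, ← one_div, mul_one_div, div_le_div_iff₀ p1 p2]
  linarith

lemma Qs_le (δ : ℝ) (j : ℕ) : (Qs δ j : ℝ) ≤ ((j : ℝ) + 1) ^ (1 + δ / 8) :=
  Nat.floor_le (by positivity)

lemma le_Qs {δ : ℝ} (hδ : 0 < δ) (j : ℕ) : j + 1 ≤ Qs δ j := by
  unfold Qs
  apply Nat.le_floor
  push_cast
  have h1 : (1 : ℝ) ≤ (j : ℝ) + 1 := by
    have : (0 : ℝ) ≤ j := Nat.cast_nonneg j
    linarith
  calc (j : ℝ) + 1 = ((j : ℝ) + 1) ^ (1 : ℝ) := (Real.rpow_one _).symm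
    _ ≤ _ := Real.rpow_le_rpow_of_exponent_le h1 (by linarith)

lemma εs_pos (δ : ℝ) (j : ℕ) : 0 < εs δ j := by unfold εs Rs; positivity

lemma Ds_nonneg (b : ℝ) (j : ℕ) : 0 ≤ Ds b j := by unfold Ds; positivity

lemma W_upper {b δ : ℝ} (hb : 0 ≤ b) (hδ : 0 < δ) (hδ1 : δ ≤ 1) (j : ℕ) :
    ((Qs δ j * (Ms b δ j + 4) : ℕ) : ℝ) ≤
      (21 + 32 * 2 ^ b) * ((j : ℝ) + 1) ^ (b + 2 + 5 / 8 * δ) := by
  set y : ℝ := (j : ℝ) + 1 with hy
  have hy1 : 1 ≤ y := by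
    have : (0 : ℝ) ≤ j := Nat.cast_nonneg j
    linarith
  have hy0 : 0 < y := by linarith
  have hM : (Ms b δ j : ℝ) ≤ (1 + 2 * Ds b j) / εs δ j + 1 := by
    have hnn : 0 ≤ (1 + 2 * Ds b j) / εs δ j := by
      have := εs_pos δ j
      have := Ds_nonneg b j
      positivity
    exact (Nat.ceil_lt_add_one hnn).le
  have hD : Ds b j ≤ 2 ^ b * y ^ b := by
    unfold Ds
    rw [← Real.mul_rpow (by norm_num) hy0.le]
    apply Real.rpow_le_rpow (by positivity) _ hb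
    linarith
  have hinv : 1 / εs δ j ≤ 16 * y ^ (1 + δ / 2) := by
    unfold εs Rs
    rw [Real.rpow_neg (by positivity)]
    have e : 1 / ((((j + 1 : ℕ) : ℝ) + 1) ^ (1 + δ / 2))⁻¹ = (((j + 1 : ℕ) : ℝ) + 1) ^ (1 + δ / 2) := by
      rw [one_div, inv_inv]
    have e2 : (1 : ℝ) / (((((j + 1 : ℕ) : ℝ) + 1) ^ (1 + δ / 2))⁻¹ / 4) =
        4 * (((j + 1 : ℕ) : ℝ) + 1) ^ (1 + δ / 2) := by
      have : 0 < (((j + 1 : ℕ) : ℝ) + 1) ^ (1 + δ / 2) := by positivity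
      field_simp
    rw [e2]
    have h2 : (((j + 1 : ℕ) : ℝ) + 1) ^ (1 + δ / 2) ≤ 4 * y ^ (1 + δ / 2) := by
      calc (((j + 1 : ℕ) : ℝ) + 1) ^ (1 + δ / 2) ≤ (2 * y) ^ (1 + δ / 2) := by
            apply Real.rpow_le_rpow (by positivity) _ (by linarith)
            push_cast; linarith
        _ = 2 ^ (1 + δ / 2) * y ^ (1 + δ / 2) := Real.mul_rpow (by norm_num) hy0.le
        _ ≤ 4 * y ^ (1 + δ / 2) := by
            apply mul_le_mul_of_nonneg_right _ (by positivity)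
            calc (2 : ℝ) ^ (1 + δ / 2) ≤ 2 ^ (2 : ℝ) :=
                  Real.rpow_le_rpow_of_exponent_le (by norm_num) (by linarith)
              _ = 4 := by norm_num
    linarith
  have hyb : 1 ≤ y ^ b := Real.one_le_rpow hy1 hb
  have hyd : 1 ≤ y ^ (1 + δ / 2) := Real.one_le_rpow hy1 (by linarith)
  have hyp : 0 < y ^ b * y ^ (1 + δ / 2) := by positivity
  have h2b : (0 : ℝ) < 2 ^ b := by positivity
  have hM2 : (Ms b δ j : ℝ) + 4 ≤ (21 + 32 * 2 ^ b) * (y ^ b * y ^ (1 + δ / 2)) := by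
    have h1 : (1 + 2 * Ds b j) / εs δ j ≤ (1 + 2 * (2 ^ b * y ^ b)) * (16 * y ^ (1 + δ / 2)) := by
      rw [div_eq_mul_one_div]
      apply mul_le_mul _ hinv _ (by positivity)
      · linarith
      · have := εs_pos δ j
        positivity
    have h3 : (1 : ℝ) * 1 ≤ y ^ b * y ^ (1 + δ / 2) := by gcongr
    have h4 : y ^ (1 + δ / 2) ≤ y ^ b * y ^ (1 + δ / 2) :=
      le_mul_of_one_le_left (by positivity) hyb
    calc (Ms b δ j : ℝ) + 4 ≤ (1 + 2 * (2 ^ b * y ^ b)) * (16 * y ^ (1 + δ / 2)) + 5 := by linarith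
      _ = 16 * y ^ (1 + δ / 2) + 32 * 2 ^ b * (y ^ b * y ^ (1 + δ / 2)) + 5 := by ring
      _ ≤ 16 * (y ^ b * y ^ (1 + δ / 2)) + 32 * 2 ^ b * (y ^ b * y ^ (1 + δ / 2)) +
          5 * (y ^ b * y ^ (1 + δ / 2)) := by linarith
      _ = _ := by ring
  push_cast
  calc (Qs δ j : ℝ) * (Ms b δ j + 4) ≤ y ^ (1 + δ / 8) *
        ((21 + 32 * 2 ^ b) * (y ^ b * y ^ (1 + δ / 2))) := by
        apply mul_le_mul (Qs_le δ j) hM2 (by positivity) (by positivity)
    _ = (21 + 32 * 2 ^ b) * (y ^ (1 + δ / 8) * y ^ b * y ^ (1 + δ / 2)) := by ring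
    _ = _ := by
        rw [← Real.rpow_add hy0, ← Real.rpow_add hy0]
        congr 2
        ring

lemma H_lower {b δ : ℝ} (hb : 0 ≤ b) (hδ : 0 < δ) {j z : ℕ} (hj : 3 ≤ j)
    (h : j / 2 ≤ Nat.log 2 z) :
    (4 : ℝ) ^ (-(b + 2 + δ)) * ((j : ℝ) + 1) ^ (b + 2 + δ) ≤ HH b δ z := by
  unfold HH
  refine le_trans ?_ (Nat.le_ceil _)
  have h1 : ((j : ℝ) + 1) / 4 ≤ ((Nat.log 2 z : ℕ) : ℝ) := by
    have : j + 1 ≤ 4 * Nat.log 2 z := by omega
    have h2 : (j : ℝ) + 1 ≤ 4 * ((Nat.log 2 z : ℕ) : ℝ) := by exact_mod_cast this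
    linarith
  calc (4 : ℝ) ^ (-(b + 2 + δ)) * ((j : ℝ) + 1) ^ (b + 2 + δ)
      = (((j : ℝ) + 1) / 4) ^ (b + 2 + δ) := by
        rw [Real.div_rpow (by positivity) (by norm_num), Real.rpow_neg (by norm_num)]
        ring
    _ ≤ _ := Real.rpow_le_rpow (by positivity) h1 (by linarith)

lemma sum_E {E : ℕ → ℝ} (hs : Summable E) : Summable (βs E) := by
  have h1 : Summable fun k : ℕ => E (k - 1) := by
    rw [← summable_nat_add_iff 1]
    exact hs
  have h2 : Summable fun j : ℕ => E (j / 2 - 1) := by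
    apply Summable.even_add_odd
    · refine h1.congr ?_
      intro k
      congr 1
      omega
    · refine h1.congr ?_
      intro k
      congr 1
      omega
  exact h2.mul_left _

lemma sum_neg_pow {a : ℝ} (ha : 1 < a) : Summable fun j : ℕ => ((j : ℝ) + 1) ^ (-a) := by
  have h := (summable_nat_add_iff 1 (f := fun n : ℕ => (n : ℝ) ^ (-a))).mpr
    (Real.summable_nat_rpow.mpr (by linarith))
  refine h.congr ?_
  intro j
  push_cast
  rfl

lemma sum_Q {δ : ℝ} (hδ : 0 < δ) (hδ1 : δ ≤ 1) : Summable fun j => (Qs δ j : ℝ) / 2 ^ j := by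
  have h1 : Summable fun j : ℕ => (j : ℝ) ^ 2 * (1 / 2 : ℝ) ^ j :=
    summable_pow_mul_geometric_of_norm_lt_one 2 (by norm_num)
  have h2 := ((summable_nat_add_iff 1).mpr h1).mul_left 2
  refine Summable.of_nonneg_of_le (fun j => by positivity) (fun j => ?_) h2
  have h3 : (Qs δ j : ℝ) ≤ ((j : ℝ) + 1) ^ 2 := by
    refine (Qs_le δ j).trans ?_
    have : ((j : ℝ) + 1) ^ (1 + δ / 8) ≤ ((j : ℝ) + 1) ^ (2 : ℝ) := by
      apply Real.rpow_le_rpow_of_exponent_le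
      · have : (0 : ℝ) ≤ j := Nat.cast_nonneg j
        linarith
      · linarith
    refine this.trans (le_of_eq ?_)
    exact_mod_cast Real.rpow_natCast ((j : ℝ) + 1) 2
  calc (Qs δ j : ℝ) / 2 ^ j ≤ ((j : ℝ) + 1) ^ 2 / 2 ^ j := by gcongr
    _ = 2 * (((j + 1 : ℕ) : ℝ) ^ 2 * (1 / 2) ^ (j + 1)) := by
        push_cast
        rw [div_pow, one_pow]
        field_simp
        ring

lemma sum_P {δ : ℝ} (hδ : 0 < δ) :
    Summable fun j => (1 : ℝ) / #(prm (Qs δ j)) := by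
  set s : ℝ := (1 + δ / 16) / (1 + δ / 8) with hs
  have hs0 : 0 ≤ s := by rw [hs]; positivity
  have hs1 : s < 1 := by rw [hs, div_lt_one (by positivity)]; linarith
  have hlow := prm_lower hs0 hs1
  have hQt : Tendsto (Qs δ) atTop atTop := by
    apply tendsto_atTop_mono (fun j => le_trans (Nat.le_succ j) (le_Qs hδ j)) tendsto_id
  have h1 := hQt.eventually hlow
  have h2 : Summable fun j : ℕ => (2 : ℝ) * ((j : ℝ) + 1) ^ (-(1 + δ / 16)) :=
    (sum_neg_pow (by linarith)).mul_left 2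
  apply Summable.of_norm_bounded_eventually_nat h2
  filter_upwards [h1, eventually_ge_atTop 1] with j hj hj1
  rw [Real.norm_of_nonneg (by positivity)]
  have hy1 : (1 : ℝ) ≤ (j : ℝ) + 1 := by
    have : (0 : ℝ) ≤ j := Nat.cast_nonneg j
    linarith
  have hj1' : (1 : ℝ) ≤ j := by exact_mod_cast hj1
  have hyp : 0 < (j : ℝ) + 1 := by linarith
  have hpow : (2 : ℝ) ≤ ((j : ℝ) + 1) ^ (1 + δ / 8) := by
    calc (2 : ℝ) ≤ (j : ℝ) + 1 := by linarith
      _ = ((j : ℝ) + 1) ^ (1 : ℝ) := (Real.rpow_one _).symm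
      _ ≤ _ := Real.rpow_le_rpow_of_exponent_le hy1 (by linarith)
  have hQl : ((j : ℝ) + 1) ^ (1 + δ / 8) / 2 ≤ Qs δ j := by
    have := Nat.lt_floor_add_one (((j : ℝ) + 1) ^ (1 + δ / 8))
    unfold Qs
    linarith
  have e1 : ((j : ℝ) + 1) ^ (1 + δ / 16) / 2 ≤ #(prm (Qs δ j)) := by
    refine le_trans ?_ hj
    calc ((j : ℝ) + 1) ^ (1 + δ / 16) / 2
        ≤ ((j : ℝ) + 1) ^ (1 + δ / 16) / 2 ^ s := by
          apply div_le_div_of_nonneg_left (by positivity) (by positivity)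
          calc (2 : ℝ) ^ s ≤ 2 ^ (1 : ℝ) :=
                Real.rpow_le_rpow_of_exponent_le (by norm_num) hs1.le
            _ = 2 := by norm_num
      _ = (((j : ℝ) + 1) ^ (1 + δ / 8) / 2) ^ s := by
          rw [Real.div_rpow (by positivity) (by norm_num), ← Real.rpow_mul hyp.le]
          congr 2
          rw [hs]
          field_simp
      _ ≤ _ := Real.rpow_le_rpow (by positivity) hQl hs0
  have hpos : 0 < ((j : ℝ) + 1) ^ (1 + δ / 16) / 2 := by positivity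
  calc (1 : ℝ) / #(prm (Qs δ j)) ≤ 1 / (((j : ℝ) + 1) ^ (1 + δ / 16) / 2) := by gcongr
    _ = _ := by
        rw [Real.rpow_neg hyp.le]
        field_simp

lemma E_nonneg {E : ℕ → ℝ} (hE : Antitone E) (hs : Summable E) (j : ℕ) : 0 ≤ E j :=
  hE.le_of_tendsto hs.tendsto_atTop_zero j

lemma bad_bound {f : ℕ → ℤ} {b δ : ℝ} {E : ℕ → ℝ} (hE : Antitone E) (hs : Summable E) {J : ℕ}
    (hbad : ∀ j, J ≤ j → (#{n ∈ Ico (2 ^ j) (2 ^ (j + 1)) |
      ¬ Rot f (HH b δ n) (dd b n) n} : ℝ) ≤ E j * 2 ^ j)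
    {j z : ℕ} (hj : 2 * J + 4 ≤ j) (h1 : j / 2 ≤ Nat.log 2 z) :
    (cnt (Bad f (HH b δ) (dd b)) z : ℝ) ≤ βs E j * z := by
  set i := Nat.log 2 z with hi
  have hz : z ≠ 0 := by
    rintro rfl
    simp at hi
    omega
  have h2i : 2 ^ i ≤ z := by rw [hi]; exact Nat.pow_log_le_self 2 hz
  have h2i' : z < 2 ^ (i + 1) := by rw [hi]; exact Nat.lt_pow_succ_log_self (by norm_num) z
  have hii : i - 1 + 1 = i := by omega
  have h2 : 2 ^ i = 2 * 2 ^ (i - 1) := by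
    conv_lhs => rw [← hii]
    ring
  have hcov : {n ∈ Ioc (z / 2) z | Bad f (HH b δ) (dd b) n} ⊆
      {n ∈ Ico (2 ^ (i - 1)) (2 ^ (i - 1 + 1)) | ¬ Rot f (HH b δ n) (dd b n) n} ∪
      {n ∈ Ico (2 ^ i) (2 ^ (i + 1)) | ¬ Rot f (HH b δ n) (dd b n) n} := by
    intro n hn
    rw [mem_filter, mem_Ioc] at hn
    have hR : ¬ Rot f (HH b δ n) (dd b n) n := fun hR => hn.2 hR.good
    rw [mem_union, mem_filter, mem_filter, mem_Ico, mem_Ico, hii]
    by_cases hc : n < 2 ^ i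
    · left; exact ⟨⟨by omega, hc⟩, hR⟩
    · right; exact ⟨⟨by omega, by omega⟩, hR⟩
  have hc := (card_le_card hcov).trans (card_union_le _ _)
  have hc' : (cnt (Bad f (HH b δ) (dd b)) z : ℝ) ≤
      #{n ∈ Ico (2 ^ (i - 1)) (2 ^ (i - 1 + 1)) | ¬ Rot f (HH b δ n) (dd b n) n} +
      #{n ∈ Ico (2 ^ i) (2 ^ (i + 1)) | ¬ Rot f (HH b δ n) (dd b n) n} := by
    exact_mod_cast hc
  have b1 := hbad (i - 1) (by omega)
  have b2 := hbad i (by omega)
  have hEi : E i ≤ E (i - 1) := hE (by omega)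
  have hEj : E (i - 1) ≤ E (j / 2 - 1) := hE (by omega)
  have hE0 := E_nonneg hE hs (j / 2 - 1)
  have hzR : (2 : ℝ) ^ i ≤ z := by exact_mod_cast h2i
  have h2R : (2 : ℝ) ^ i = 2 * 2 ^ (i - 1) := by exact_mod_cast h2
  have hp : (0 : ℝ) < 2 ^ (i - 1) := by positivity
  calc (cnt (Bad f (HH b δ) (dd b)) z : ℝ) ≤ E (i - 1) * 2 ^ (i - 1) + E i * 2 ^ i := by linarith
    _ ≤ E (j / 2 - 1) * 2 ^ (i - 1) + E (j / 2 - 1) * 2 ^ i := by
        have : E i ≤ E (j / 2 - 1) := hEi.trans hEj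
        gcongr
    _ = βs E j * 2 ^ i := by rw [h2R]; unfold βs; ring
    _ ≤ βs E j * z := by
        have : 0 ≤ βs E j := by unfold βs; positivity
        gcongr

lemma mkPar {f : ℕ → ℤ} (hf : ∀ n, f n = 1 ∨ f n = -1)
    (hm : ∀ a b, a ≠ 0 → b ≠ 0 → f (a * b) = f a * f b)
    {b δ : ℝ} (hb : 0 ≤ b) (hδ : 0 < δ) (hδ1 : δ ≤ 1) {E : ℕ → ℝ} (hE : Antitone E)
    (hs : Summable E) {J : ℕ}
    (hbad : ∀ j, J ≤ j → (#{n ∈ Ico (2 ^ j) (2 ^ (j + 1)) |
      ¬ Rot f (HH b δ n) (dd b n) n} : ℝ) ≤ E j * 2 ^ j) :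
    ∃ J₀, Par2 f (HH b δ) (dd b) J₀ (Qs δ) (Ms b δ) (Ds b) (εs δ) (Rs δ) (βs E) (θs δ) := by
  have e1 := pow_dom (show b + 2 + 5 / 8 * δ < b + 2 + δ by linarith)
    ((21 + 32 * 2 ^ b) * 4 ^ (b + 2 + δ))
  have e2 := pow_two_dom (b + 2 + 5 / 8 * δ) (21 + 32 * 2 ^ b)
  have e3 := pow_two_dom (1 + δ / 8) 2
  have e4 := pow_dom (show 1 + δ / 8 < 1 + δ / 2 by linarith) 11
  have e5 := pow_dom (show 1 + δ / 8 < 1 + δ / 4 by linarith) 11
  have eall := (((e1.and e2).and e3).and e4).and e5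
  rw [eventually_atTop] at eall
  obtain ⟨J₁, hJ₁⟩ := eall
  refine ⟨max J₁ (2 * J + 4), ?_⟩
  have hget : ∀ j, max J₁ (2 * J + 4) ≤ j → J₁ ≤ j ∧ 2 * J + 4 ≤ j := fun j hj =>
    ⟨(le_max_left _ _).trans hj, (le_max_right _ _).trans hj⟩
  have hypos : ∀ j : ℕ, (0 : ℝ) < (j : ℝ) + 1 := fun j => by positivity
  have hy1 : ∀ j : ℕ, (1 : ℝ) ≤ (j : ℝ) + 1 := fun j => by
    have : (0 : ℝ) ≤ j := Nat.cast_nonneg j
    linarith
  have hsmall : ∀ (a : ℝ) (j : ℕ), 11 * ((j : ℝ) + 1) ^ (1 + δ / 8) ≤ ((j : ℝ) + 1) ^ a →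
      10 * (Qs δ j : ℝ) * ((j : ℝ) + 1) ^ (-a) < 1 := by
    intro a j h
    have hp := Real.rpow_pos_of_pos (hypos j) a
    rw [Real.rpow_neg (hypos j).le]
    rw [mul_inv_lt_iff₀ hp, one_mul]
    have := Qs_le δ j
    have hp2 := Real.rpow_pos_of_pos (hypos j) (1 + δ / 8)
    linarith
  exact {
    hf := hf
    hm := hm
    J2 := le_trans (by omega) (le_max_right _ _)
    win := by
      intro j hj z h1 h2
      obtain ⟨g1, g2⟩ := hget j hj
      constructor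
      · have hW := W_upper hb hδ hδ1 j
        have hH := H_lower hb hδ (by omega : 3 ≤ j) h1
        have h3 := (hJ₁ j g1).1.1.1.1
        have h4 : ((Qs δ j * (Ms b δ j + 4) : ℕ) : ℝ) ≤ HH b δ z := by
          refine hW.trans (le_trans ?_ hH)
          have h5 : (0 : ℝ) < 4 ^ (b + 2 + δ) := by positivity
          rw [Real.rpow_neg (by norm_num), inv_mul_eq_div, le_div_iff₀ h5]
          calc _ = (21 + 32 * 2 ^ b) * 4 ^ (b + 2 + δ) * ((j : ℝ) + 1) ^ (b + 2 + 5 / 8 * δ) := by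
                ring
            _ ≤ _ := h3
        exact_mod_cast h4
      · unfold dd Ds
        apply Real.rpow_le_rpow (by positivity) _ hb
        have : ((Nat.log 2 z : ℕ) : ℝ) ≤ ((j + 1 : ℕ) : ℝ) := by exact_mod_cast h2
        push_cast at this
        linarith
    Mpos := by
      intro j _
      unfold Ms
      rw [Nat.one_le_ceil_iff]
      have := εs_pos δ j
      have := Ds_nonneg b j
      positivity
    eps := by
      intro j _
      have h0 := εs_pos δ j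
      have h1 := Nat.le_ceil ((1 + 2 * Ds b j) / εs δ j)
      rw [div_le_iff₀ h0] at h1
      unfold Ms
      linarith
    R0 := by intro j; unfold Rs; positivity
    R_small := by
      intro j hj
      exact hsmall _ j (hJ₁ j (hget j hj).1).1.2
    epsR := by
      intro j _
      unfold εs Rs
      have := neg_pow_anti (a := 1 + δ / 2) (by linarith) (Nat.le_succ j)
      have h2 : ((Nat.succ j : ℕ) : ℝ) = ((j + 1 : ℕ) : ℝ) := rfl
      rw [h2] at this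
      linarith
    R_lo := by
      intro j hj i h1 _
      exact pow_lo (by linarith) (by linarith) (by have := (hget j hj).2; omega) h1
    R_anti := by
      intro i j h
      exact neg_pow_anti (by linarith) h
    Qsmall := by
      intro j hj
      have h1 := (hJ₁ j (hget j hj).1).1.1.2
      have h2 := Qs_le δ j
      have h3 : 2 * Qs δ j ≤ 2 ^ (j / 2) := by
        have : (2 : ℝ) * Qs δ j ≤ 2 ^ (j / 2) := by linarith
        exact_mod_cast this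
      calc 2 * Qs δ j * 2 ^ (j / 2) ≤ 2 ^ (j / 2) * 2 ^ (j / 2) := Nat.mul_le_mul_right _ h3
        _ = 2 ^ (j / 2 + j / 2) := by rw [pow_add]
        _ ≤ 2 ^ j := Nat.pow_le_pow_right (by norm_num) (by omega)
    β0 := by
      intro j
      unfold βs
      have := E_nonneg hE hs (j / 2 - 1)
      positivity
    bad := by
      intro j hj z h1 _
      exact bad_bound hE hs hbad (hget j hj).2 h1
    Q5 := by
      intro j hj
      have := le_Qs hδ j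
      have := (hget j hj).2
      omega
    θ0 := by intro j; unfold θs; positivity
    θ_small := by
      intro j hj
      exact hsmall _ j (hJ₁ j (hget j hj).1).2
    epsθ := by
      intro j _
      unfold εs Rs θs
      have : (((j + 1 : ℕ) : ℝ) + 1) ^ (-(1 + δ / 2)) ≤ (((j + 1 : ℕ) : ℝ) + 1) ^ (-(1 + δ / 4)) :=
        Real.rpow_le_rpow_of_exponent_le (hy1 (j + 1)) (by linarith)
      linarith
    Wsmall := by
      intro j hj
      have h1 := (hJ₁ j (hget j hj).1).1.1.1.2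
      have h2 := (W_upper hb hδ hδ1 j).trans h1
      exact_mod_cast h2
    θ_lo := by
      intro j hj i h1 _
      exact pow_lo (by linarith) (by linarith) (by have := (hget j hj).2; omega) h1
    θ_anti := by
      intro i j h
      exact neg_pow_anti (by linarith) h
    ratio := by
      intro C
      have h := pow_dom (show (-(1 + δ / 2)) < (-(1 + δ / 4)) by linarith) C
      rw [eventually_atTop] at h
      obtain ⟨a, ha⟩ := h
      exact ⟨a, fun j hj => ha j hj⟩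
    M2 := by
      intro j _
      unfold Ms
      have h0 := εs_pos δ j
      have hD := Ds_nonneg b j
      have h1 : εs δ j ≤ 1 / 4 := by
        unfold εs Rs
        have : (((j + 1 : ℕ) : ℝ) + 1) ^ (-(1 + δ / 2)) ≤ 1 :=
          Real.rpow_le_one_of_one_le_of_nonpos (hy1 (j + 1)) (by linarith)
        linarith
      have h2 : (2 : ℝ) ≤ (1 + 2 * Ds b j) / εs δ j := by
        rw [le_div_iff₀ h0]
        linarith
      have h3 : (2 : ℝ) ≤ (⌈(1 + 2 * Ds b j) / εs δ j⌉₊ : ℝ) := h2.trans (Nat.le_ceil _)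
      exact_mod_cast h3
    D0 := Ds_nonneg b
    Qinf := by
      intro C
      refine ⟨C, fun j hj => ?_⟩
      have := le_Qs hδ j
      omega
    sβ := sum_E hs
    sP := sum_P hδ
    sQ := sum_Q hδ hδ1
    sθ := sum_neg_pow (by linarith) }

end Pool.Agent.helper937_rot
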