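import Pool.Agent.helper937_rot.Slope

set_option autoImplicit false

namespace Pool.Agent.helper937_rot

open Finset
open scoped Classical

variable {f : ℕ → ℤ} {Hf : ℕ → ℕ} {df : ℕ → ℝ} {J₀ : ℕ} {Q M : ℕ → ℕ} {D ε R β θ : ℕ → ℝ}

/-- the pair `n, n⁺` is good, with small slopes and equal values -/
def GG (f : ℕ → ℤ) (Hf : ℕ → ℕ) (df : ℕ → ℝ) (θ : ℕ → ℝ) (K n : ℕ) : Prop :=
  G f Hf df n ∧ G f Hf df (up K n) ∧ sig f Hf df n ≤ θ (Nat.log 2 n) ∧
    sig f Hf df (up K n) ≤ θ (Nat.log 2 (up K n)) ∧ f n = f (up K n)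

def AA (f : ℕ → ℤ) (Hf : ℕ → ℕ) (df : ℕ → ℝ) (θ : ℕ → ℝ) (K n : ℕ) : Prop :=
  ¬ GG f Hf df θ K n

/-- bad events for the multiplier `q` -/
def P3 (f : ℕ → ℤ) (Hf : ℕ → ℕ) (df : ℕ → ℝ) (θ : ℕ → ℝ) (τ : ℝ) (K n q : ℕ) : Prop :=
  AA f Hf df θ K (ce n q) ∨ WW f Hf df (5 * τ / q) (3 * q) n ∨
    WW f Hf df (5 * τ / q) (3 * q) (up K n) ∨ WW f Hf df (5 * τ) 1 (up K (ce n q))

lemma Par2.win_of (P : Par2 f Hf df J₀ Q M D ε R β θ) {j z : ℕ} (hj : J₀ ≤ j)
    (h1 : 2 * 2 ^ (j / 2) ≤ z) (h2 : z < 2 ^ (j + 2)) :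
    ∀ n, n ≤ z → z < 2 * n → Q j * (M j + 4) ≤ Hf n ∧ df n ≤ D j := by
  intro n h3 h4
  apply P.win j hj
  · calc j / 2 = Nat.log 2 (2 ^ (j / 2)) := (Nat.log_pow (by norm_num) _).symm
      _ ≤ Nat.log 2 n := Nat.log_mono_right (by omega)
  · have : n < 2 ^ (j + 2) := by omega
    have := Nat.log_lt_of_lt_pow (by omega) this
    omega

/-- count of sign changes near good windows of small slope -/
lemma Par2.cntW (P : Par2 f Hf df J₀ Q M D ε R β θ) {j z l : ℕ} {τ : ℝ} (hj : J₀ ≤ j)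
    (h1 : 2 * 2 ^ (j / 2) ≤ z) (h2 : z < 2 ^ (j + 2)) (hl : 1 ≤ l) (hlQ : l ≤ 3 * Q j)
    (hτ : 0 ≤ τ) :
    (cnt (WW f Hf df τ l) z : ℝ) ≤ 5 * z * l * (2 * τ + (1 + 2 * D j) / (Q j * (M j + 4) : ℕ)) := by
  set W := Q j * (M j + 4) with hW
  have hQ5 := P.Q5 j hj
  have hM2 := P.M2 j hj
  have hW6 : 6 * Q j ≤ W := by
    rw [hW]
    calc 6 * Q j = Q j * 6 := by ring
      _ ≤ _ := Nat.mul_le_mul_left _ (by omega)
  have hWz : W ≤ z := by
    have := P.Wsmall j hj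
    omega
  have hc := change_count (f := f) (Hf := Hf) (df := df) (θ := τ) (D := D j) (l := l) (W := W)
    (x := z) hl (by omega) hτ (P.D0 j) (P.win_of hj h1 h2)
  have hWR : (0 : ℝ) < W := by
    have : 0 < W := by omega
    exact_mod_cast this
  have hWzR : (W : ℝ) ≤ z := by exact_mod_cast hWz
  have hD := P.D0 j
  have h5 : 4 * (z : ℝ) / W + 1 ≤ 5 * z / W := by
    rw [div_add_one hWR.ne', div_le_div_iff_of_pos_right hWR]
    linarith
  refine hc.trans ?_
  have hnn : 0 ≤ (l : ℝ) * (2 * W * τ + 1 + 2 * D j) := by positivity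
  calc (4 * (z : ℝ) / W + 1) * (l * (2 * W * τ + 1 + 2 * D j))
      ≤ 5 * z / W * (l * (2 * W * τ + 1 + 2 * D j)) := mul_le_mul_of_nonneg_right h5 hnn
    _ = _ := by
        field_simp
        ring

lemma Par2.DW (P : Par2 f Hf df J₀ Q M D ε R β θ) {j : ℕ} (hj : J₀ ≤ j) :
    Q j * ((1 + 2 * D j) / (Q j * (M j + 4) : ℕ)) ≤ θ j / 4 ∧
    (1 + 2 * D j) / (Q j * (M j + 4) : ℕ) ≤ θ j / 4 := by
  have hQ5 := P.Q5 j hj
  have hD := P.D0 j
  have hQR : (5 : ℝ) ≤ Q j := by exact_mod_cast hQ5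
  have hM : (0 : ℝ) ≤ M j := Nat.cast_nonneg _
  have he := P.eps j hj
  have heθ := P.epsθ j hj
  have hθa := P.θ_anti j (j + 1) (by omega)
  have hθ0 := P.θ0 j
  have h1 : (1 + 2 * D j) ≤ θ j / 4 * (M j + 4) := by
    have : ε j * M j ≤ θ j / 4 * M j := by
      apply mul_le_mul_of_nonneg_right _ hM
      linarith
    nlinarith
  have hX : (1 + 2 * D j) / (M j + 4) ≤ θ j / 4 := by
    rw [div_le_iff₀ (by positivity)]
    exact h1
  have e : (Q j : ℝ) * ((1 + 2 * D j) / (Q j * (M j + 4) : ℕ)) = (1 + 2 * D j) / (M j + 4) := by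
    push_cast
    field_simp
  constructor
  · rw [e]; exact hX
  · refine le_trans ?_ hX
    push_cast
    apply div_le_div_of_nonneg_left (by positivity) (by positivity)
    nlinarith

lemma Par2.pointwise (P : Par2 f Hf df J₀ Q M D ε R β θ) {K x n : ℕ} (hK : 1 ≤ K)
    (hx : J₀ ≤ Nat.log 2 x) (h1 : n ≤ x) (h2 : x < 2 * n) (hA : AA f Hf df θ K n)
    (g1 : G f Hf df n) (g2 : G f Hf df (up K n)) :
    #{q ∈ prm (Q (Nat.log 2 x)) | ¬ P3 f Hf df θ (θ (Nat.log 2 x)) K n q} ≤ 1 := by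
  set j := Nat.log 2 x with hj
  by_contra hcon
  push Not at hcon
  have hx0 : x ≠ 0 := by omega
  have hn : 1 ≤ n := by omega
  have hJ2 := P.J2
  obtain ⟨l5, l6⟩ := log_n h1 h2
  rw [← hj] at l5 l6
  obtain ⟨u1, u2⟩ := log_up (K := K) hn
  have w1 := P.win j hx n (by omega) (by omega)
  have w2 := P.win j hx (up K n) (by omega) (by omega)
  have hM := P.Mpos j hx
  have hM' : (0 : ℝ) < M j := by exact_mod_cast hM
  have heps := P.eps j hx
  have hQ5 := P.Q5 j hx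
  have h5M : 5 * (M j + 4) ≤ Q j * (M j + 4) := Nat.mul_le_mul_right _ hQ5
  have heθ := P.epsθ j hx
  have hθa := P.θ_anti j (j + 1) (by omega)
  have hθ0 := P.θ0 (j + 1)
  have hθ0' := P.θ0 j
  have hθs := P.θ_small j hx
  have hQnn : (0 : ℝ) ≤ Q j := Nat.cast_nonneg _
  -- facts for a good multiplier
  have key : ∀ q, q ∈ {q ∈ prm (Q j) | ¬ P3 f Hf df θ (θ j) K n q} →
      (q.Prime ∧ 5 ≤ q ∧ q ≤ Q j) ∧
      tau (q * sig f Hf df n) ≤ 19 / 4 * θ (j + 1) ∧
      tau (q * sig f Hf df (up K n)) ≤ 19 / 4 * θ (j + 1) := by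
    intro q hq
    rw [mem_filter] at hq
    have hq' := mem_prm.mp hq.1
    have hq1 : 1 ≤ q := by omega
    obtain ⟨m1, m2, m3⟩ := log_small (j := j) (x := x) (n := n) (q := q) hj.symm hx0
      (P.Qsmall j hx) hq'.1.2 hq1 h1 h2
    have hcp := ce_pos (n := n) hq1 hn
    obtain ⟨v1, v2⟩ := log_up (K := K) hcp
    have hP := hq.2
    unfold P3 AA at hP
    push Not at hP
    obtain ⟨⟨a1, a2, a3, a4, _⟩, _⟩ := hP
    have w3 := P.win j hx (ce n q) m1 (by omega)
    have w4 := P.win j hx (up K (ce n q)) (by omega) (by omega)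
    have hqM : q * (M j + 4) ≤ Q j * (M j + 4) := Nat.mul_le_mul_right _ hq'.1.2
    have hq3 : q * (M j + 1) ≤ q * (M j + 4) := Nat.mul_le_mul_left _ (by omega)
    have hq4 : q * (M j + 3) ≤ q * (M j + 4) := Nat.mul_le_mul_left _ (by omega)
    have r1 := rel_down P.hf P.hm hn hq1 g1 a1 (hq3.trans (hqM.trans w1.1))
      (by omega : M j < Hf (ce n q))
    have r2 := rel_up P.hf P.hm hK hn hq1 g2 a2 (hq4.trans (hqM.trans w2.1)) (by omega)
    have r1' : |tau (q * sig f Hf df n) - sig f Hf df (ce n q)| ≤ ε j := by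
      refine le_of_mul_le_mul_right (r1.trans ?_) hM'
      linarith [w1.2, w3.2]
    have r2' : |tau (q * sig f Hf df (up K n)) - sig f Hf df (up K (ce n q))| ≤ ε j := by
      refine le_of_mul_le_mul_right (r2.trans ?_) hM'
      linarith [w2.2, w4.2]
    have t1 := P.θ_lo j hx _ m1 (by omega)
    have t2 := P.θ_lo j hx (Nat.log 2 (up K (ce n q))) (by omega) (by omega)
    rw [abs_le] at r1' r2'
    refine ⟨⟨hq'.2, hq'.1.1, hq'.1.2⟩, ?_, ?_⟩ <;> linarith [r1'.2, r2'.2]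
  obtain ⟨a, ha, b, hb, hab⟩ := Finset.one_lt_card.mp hcon
  obtain ⟨⟨pa, a5, aQ⟩, ka1, ka2⟩ := key a ha
  obtain ⟨⟨pb, b5, bQ⟩, kb1, kb2⟩ := key b hb
  have aQ' : (a : ℝ) ≤ Q j := by exact_mod_cast aQ
  have bQ' : (b : ℝ) ≤ Q j := by exact_mod_cast bQ
  have a5' : (5 : ℝ) ≤ a := by exact_mod_cast a5
  have hprod : (Q j : ℝ) * θ (j + 1) ≤ Q j * θ j := by gcongr
  have hsm : ((a : ℝ) + b) * (19 / 4 * θ (j + 1)) < 1 := by
    calc ((a : ℝ) + b) * (19 / 4 * θ (j + 1)) ≤ (Q j + Q j) * (19 / 4 * θ (j + 1)) := by gcongr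
      _ = 19 / 2 * (Q j * θ (j + 1)) := by ring
      _ < 1 := by linarith
  have hs : ∀ y : ℝ, 0 ≤ y → y ≤ 1 / 2 → tau (a * y) ≤ 19 / 4 * θ (j + 1) →
      tau (b * y) ≤ 19 / 4 * θ (j + 1) → y ≤ θ (j + 1) ∧ y ≤ 5 * θ j / a := by
    intro y hy0 hy1 ta tb
    have h := tau_le_of_coprime (by omega : 0 < a) (by omega : 0 < b)
      ((Nat.coprime_primes pa pb).mpr hab) ta tb hsm
    rw [tau_of_mem hy0 hy1] at h
    have h3 : y ≤ θ (j + 1) := by
      refine h.trans ?_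
      rw [div_le_iff₀ (by linarith)]
      nlinarith
    refine ⟨h3, h.trans ?_⟩
    gcongr
    linarith
  obtain ⟨s1, s2⟩ := hs _ g1.nonneg g1.le_half ka1 kb1
  obtain ⟨s3, s4⟩ := hs _ g2.nonneg g2.le_half ka2 kb2
  -- now the values
  rw [mem_filter] at ha
  have hP := ha.2
  have ha' := mem_prm.mp ha.1
  have ha1 : 1 ≤ a := by omega
  unfold P3 AA at hP
  push Not at hP
  obtain ⟨⟨b1, b2, b3, b4, b5'⟩, c1, c2, c3⟩ := hP
  have hcp := ce_pos (n := n) ha1 hn
  obtain ⟨m1, m2, m3⟩ := log_small (j := j) (x := x) (n := n) (q := a) hj.symm hx0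
      (P.Qsmall j hx) ha'.1.2 ha1 h1 h2
  obtain ⟨v1, v2⟩ := log_up (K := K) hcp
  have t2 := P.θ_lo j hx (Nat.log 2 (up K (ce n a))) (by omega) (by omega)
  have V1 : ¬ VV f n (3 * a) := fun hV => c1 ⟨g1, s2, hV⟩
  have V2 : ¬ VV f (up K n) (3 * a) := fun hV => c2 ⟨g2, s4, hV⟩
  have V3 : ¬ VV f (up K (ce n a)) 1 := fun hV => c3 ⟨b2, by linarith, hV⟩
  have e1 : f (a * ce n a) = f n := by
    have d1 := le_mul_ce (n := n) ha1
    have d2 := mul_ce_lt (n := n) ha1
    have := not_VV V1 (k := a * ce n a - n) (by omega)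
    rwa [show n + (a * ce n a - n) = a * ce n a by omega] at this
  have e2 : f (a * (up K (ce n a) + 1)) = f (up K n) := by
    obtain ⟨d1, d2⟩ := up_ce_bounds (K := K) (n := n) hK ha1
    have := not_VV V2 (k := a * (up K (ce n a) + 1) - up K n) (by omega)
    rwa [show up K n + (a * (up K (ce n a) + 1) - up K n) = a * (up K (ce n a) + 1) by omega]
      at this
  have e3 : f (up K (ce n a) + 1) = f (up K (ce n a)) := not_VV V3 le_rfl
  have e4 : f n = f (up K n) := by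
    rw [← e1, ← e2, P.hm _ _ (by omega) (by omega), P.hm _ _ (by omega) (by omega), e3, b5']
  apply hA
  refine ⟨g1, g2, s1.trans (P.θ_anti _ _ (by omega)), s3.trans (P.θ_anti _ _ (by omega)), e4⟩

lemma Par2.rec_A (P : Par2 f Hf df J₀ Q M D ε R β θ) {K x : ℕ} (hK : 1 ≤ K)
    (hx : J₀ ≤ Nat.log 2 x) :
    (#(prm (Q (Nat.log 2 x))) : ℝ) * cnt (AA f Hf df θ K) x ≤
      ∑ q ∈ prm (Q (Nat.log 2 x)), (q : ℝ) * cnt (AA f Hf df θ K) (ce x q) +
      #(prm (Q (Nat.log 2 x))) * ((4 * β (Nat.log 2 x) + 1 / #(prm (Q (Nat.log 2 x)))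
        + 2 * Q (Nat.log 2 x) / 2 ^ (Nat.log 2 x) + 2000 * θ (Nat.log 2 x)) * x) := by
  set j := Nat.log 2 x with hj
  set S := prm (Q j) with hS
  have hJ2 := P.J2
  have hx0 : x ≠ 0 := by
    rintro rfl
    simp at hj
    omega
  have hS0 : S.Nonempty := prm_nonempty (P.Q5 j hx)
  have hSpos : (0 : ℝ) < #S := by exact_mod_cast hS0.card_pos
  set F := {n ∈ Ioc (x / 2) x | AA f Hf df θ K n} with hF
  have h2j : 2 ^ j ≤ x := by rw [hj]; exact Nat.pow_log_le_self 2 hx0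
  have h2j' : x < 2 ^ (j + 1) := by rw [hj]; exact Nat.lt_pow_succ_log_self (by norm_num) x
  have hj2 : 2 * 2 ^ (j / 2) ≤ 2 ^ j := by
    calc 2 * 2 ^ (j / 2) ≤ 2 * Q j * 2 ^ (j / 2) := by
          apply Nat.mul_le_mul_right
          have := P.Q5 j hx
          omega
      _ ≤ 2 ^ j := P.Qsmall j hx
  have hp2 : (2 : ℕ) ^ (j + 2) = 2 * 2 ^ (j + 1) := by ring
  have hdc := double_count F S (P3 f Hf df θ (θ j) K) (EE f Hf df K) 1 ?_
  · have e1 : #{n ∈ F | EE f Hf df K n} ≤ cnt (Bad f Hf df) x +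
        (cnt (Bad f Hf df) x + cnt (Bad f Hf df) (2 * x)) := by
      have : {n ∈ F | EE f Hf df K n} ⊆
          {n ∈ Ioc (x / 2) x | Bad f Hf df n} ∪ {n ∈ Ioc (x / 2) x | Bad f Hf df (up K n)} := by
        intro n hn
        rw [mem_filter, hF, mem_filter] at hn
        rw [mem_union, mem_filter, mem_filter]
        rcases hn.2 with h | h
        · left; exact ⟨hn.1.1, h⟩
        · right; exact ⟨hn.1.1, h⟩
      refine (card_le_card this).trans ((card_union_le _ _).trans ?_)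
      exact Nat.add_le_add_left (cnt_up _ x K) _
    have e2 : ∀ q ∈ S, #{n ∈ F | P3 f Hf df θ (θ j) K n q} ≤
        q * (cnt (AA f Hf df θ K) (ce x q) + 1) +
        (cnt (WW f Hf df (5 * θ j / q) (3 * q)) x +
        ((cnt (WW f Hf df (5 * θ j / q) (3 * q)) x +
          cnt (WW f Hf df (5 * θ j / q) (3 * q)) (2 * x)) +
        q * (cnt (WW f Hf df (5 * θ j) 1) (ce x q) +
          cnt (WW f Hf df (5 * θ j) 1) (2 * ce x q) + 1))) := by
      intro q hq
      have hq1 : 1 ≤ q := by have := (mem_prm.mp hq).1.1; omega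
      have : {n ∈ F | P3 f Hf df θ (θ j) K n q} ⊆
          {n ∈ Ioc (x / 2) x | AA f Hf df θ K (ce n q)} ∪
          ({n ∈ Ioc (x / 2) x | WW f Hf df (5 * θ j / q) (3 * q) n} ∪
          ({n ∈ Ioc (x / 2) x | WW f Hf df (5 * θ j / q) (3 * q) (up K n)} ∪
          {n ∈ Ioc (x / 2) x | WW f Hf df (5 * θ j) 1 (up K (ce n q))})) := by
        intro n hn
        rw [mem_filter, hF, mem_filter] at hn
        rw [mem_union, mem_union, mem_union, mem_filter, mem_filter, mem_filter, mem_filter]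
        rcases hn.2 with h | h | h | h
        · left; exact ⟨hn.1.1, h⟩
        · right; left; exact ⟨hn.1.1, h⟩
        · right; right; left; exact ⟨hn.1.1, h⟩
        · right; right; right; exact ⟨hn.1.1, h⟩
      refine (card_le_card this).trans ((card_union_le _ _).trans ?_)
      apply Nat.add_le_add (cnt_ce _ x hq1)
      refine (card_union_le _ _).trans (Nat.add_le_add le_rfl ?_)
      refine (card_union_le _ _).trans (Nat.add_le_add (cnt_up _ x K) ?_)
      exact cnt_ce_up _ x K hq1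
    have hFle : #F ≤ x := cnt_le_self (AA f Hf df θ K) x
    have hdc' : (#S : ℝ) * #F ≤ #S * (cnt (Bad f Hf df) x +
        (cnt (Bad f Hf df) x + cnt (Bad f Hf df) (2 * x))) + 1 * x +
        ∑ q ∈ S, ((q : ℝ) * (cnt (AA f Hf df θ K) (ce x q) + 1) +
        (cnt (WW f Hf df (5 * θ j / q) (3 * q)) x +
        ((cnt (WW f Hf df (5 * θ j / q) (3 * q)) x +
          cnt (WW f Hf df (5 * θ j / q) (3 * q)) (2 * x)) +
        q * (cnt (WW f Hf df (5 * θ j) 1) (ce x q) +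
          cnt (WW f Hf df (5 * θ j) 1) (2 * ce x q) + 1)))) := by
      have : #S * #F ≤ #S * (cnt (Bad f Hf df) x +
        (cnt (Bad f Hf df) x + cnt (Bad f Hf df) (2 * x))) + 1 * x +
        ∑ q ∈ S, (q * (cnt (AA f Hf df θ K) (ce x q) + 1) +
        (cnt (WW f Hf df (5 * θ j / q) (3 * q)) x +
        ((cnt (WW f Hf df (5 * θ j / q) (3 * q)) x +
          cnt (WW f Hf df (5 * θ j / q) (3 * q)) (2 * x)) +
        q * (cnt (WW f Hf df (5 * θ j) 1) (ce x q) +
          cnt (WW f Hf df (5 * θ j) 1) (2 * ce x q) + 1)))) := by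
        refine hdc.trans ?_
        apply Nat.add_le_add
        · apply Nat.add_le_add
          · exact Nat.mul_le_mul_left _ e1
          · exact Nat.mul_le_mul_left _ hFle
        · exact sum_le_sum e2
      exact_mod_cast this
    have hl2 : Nat.log 2 (2 * x) = j + 1 := by
      rw [mul_comm, Nat.log_mul_base (by norm_num) hx0]
    have b1 : (cnt (Bad f Hf df) x : ℝ) ≤ β j * x := P.bad j hx x (by omega) (by omega)
    have b2 := P.bad j hx (2 * x) (by omega) (by omega)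
    have hβ := P.β0 j
    have hxR : (0 : ℝ) ≤ x := Nat.cast_nonneg x
    have b12 : (cnt (Bad f Hf df) x : ℝ) + (cnt (Bad f Hf df) x + cnt (Bad f Hf df) (2 * x)) ≤
        4 * β j * x := by
      push_cast at b2
      linarith
    have hθ0 := P.θ0 j
    obtain ⟨dw1, dw2⟩ := P.DW hx
    set δ := (1 + 2 * D j) / ((Q j * (M j + 4) : ℕ) : ℝ) with hδ
    have hδ0 : 0 ≤ δ := by
      have := P.D0 j
      rw [hδ]; positivity
    have e3 : ∀ q ∈ S, ((q : ℝ) * (cnt (AA f Hf df θ K) (ce x q) + 1) +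
        (cnt (WW f Hf df (5 * θ j / q) (3 * q)) x +
        ((cnt (WW f Hf df (5 * θ j / q) (3 * q)) x +
          cnt (WW f Hf df (5 * θ j / q) (3 * q)) (2 * x)) +
        q * (cnt (WW f Hf df (5 * θ j) 1) (ce x q) +
          cnt (WW f Hf df (5 * θ j) 1) (2 * ce x q) + 1)))) ≤
        q * cnt (AA f Hf df θ K) (ce x q) + (2 * Q j + 2000 * θ j * x) := by
      intro q hq
      have hq' := mem_prm.mp hq
      have hq1 : 1 ≤ q := by omega
      have hqR : (0 : ℝ) < q := by exact_mod_cast hq1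
      have hqQ : (q : ℝ) ≤ Q j := by exact_mod_cast hq'.1.2
      have hQx : q ≤ x := by
        have h3 := P.Qsmall j hx
        have h4 : 1 ≤ 2 ^ (j / 2) := Nat.one_le_two_pow
        have h5 : Q j ≤ 2 * Q j * 2 ^ (j / 2) :=
          le_trans (by omega : Q j ≤ 2 * Q j) (Nat.le_mul_of_pos_right _ (by omega))
        exact hq'.1.2.trans (h5.trans (h3.trans h2j))
      have hqce : (q : ℝ) * ce x q ≤ 2 * x := by
        have h1 := mul_ce_lt (n := x) (q := q) hq1
        have : q * ce x q ≤ 2 * x := by omega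
        exact_mod_cast this
      have hcelow : 2 * 2 ^ (j / 2) ≤ ce x q := by
        have h1 := le_mul_ce (n := x) hq1
        have h3 := P.Qsmall j hx
        have h4 : Q j * (2 * 2 ^ (j / 2)) ≤ Q j * ce x q := by
          calc Q j * (2 * 2 ^ (j / 2)) = 2 * Q j * 2 ^ (j / 2) := by ring
            _ ≤ 2 ^ j := h3
            _ ≤ x := h2j
            _ ≤ q * ce x q := h1
            _ ≤ Q j * ce x q := Nat.mul_le_mul_right _ hq'.1.2
        have := P.Q5 j hx
        exact Nat.le_of_mul_le_mul_left h4 (by omega)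
      have hcex : ce x q ≤ x := (log_small (j := j) (x := x) (n := x) (q := q) hj.symm hx0
        (P.Qsmall j hx) hq'.1.2 hq1 le_rfl (by omega)).2.2
      have hτ : 0 ≤ 5 * θ j / q := by positivity
      have c1 := P.cntW (z := x) (l := 3 * q) (τ := 5 * θ j / q) hx (by omega) (by omega)
        (by omega) (by omega) hτ
      have c2 := P.cntW (z := 2 * x) (l := 3 * q) (τ := 5 * θ j / q) hx (by omega) (by omega)
        (by omega) (by omega) hτ
      have c3 := P.cntW (z := ce x q) (l := 1) (τ := 5 * θ j) hx hcelow (by omega)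
        le_rfl (by omega) (by positivity)
      have c4 := P.cntW (z := 2 * ce x q) (l := 1) (τ := 5 * θ j) hx (by omega) (by omega)
        le_rfl (by omega) (by positivity)
      rw [← hδ] at c1 c2 c3 c4
      push_cast at c1 c2 c3 c4
      have hqδ : (q : ℝ) * δ ≤ θ j / 4 := le_trans (by gcongr) dw1
      have g1 : 5 * (x : ℝ) * (3 * q) * (2 * (5 * θ j / q) + δ) ≤ 165 * θ j * x := by
        have e : 5 * (x : ℝ) * (3 * q) * (2 * (5 * θ j / q) + δ) =
            150 * θ j * x + 15 * x * (q * δ) := by field_simp; ring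
        rw [e]
        have : 15 * (x : ℝ) * (q * δ) ≤ 15 * x * (θ j / 4) := by gcongr
        nlinarith [mul_nonneg hθ0 hxR]
      have g2 : 5 * (2 * (x : ℝ)) * (3 * q) * (2 * (5 * θ j / q) + δ) ≤ 330 * θ j * x := by
        linarith
      have g3 : 5 * (ce x q : ℝ) * 1 * (2 * (5 * θ j) + δ) ≤ 55 * θ j * ce x q := by
        have : (0 : ℝ) ≤ ce x q := Nat.cast_nonneg _
        nlinarith [mul_nonneg hθ0 this]
      have g4 : 5 * (2 * (ce x q : ℝ)) * 1 * (2 * (5 * θ j) + δ) ≤ 110 * θ j * ce x q := by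
        linarith
      have g5 : (q : ℝ) * (cnt (WW f Hf df (5 * θ j) 1) (ce x q) +
          cnt (WW f Hf df (5 * θ j) 1) (2 * ce x q)) ≤ 330 * θ j * x := by
        calc (q : ℝ) * (cnt (WW f Hf df (5 * θ j) 1) (ce x q) +
          cnt (WW f Hf df (5 * θ j) 1) (2 * ce x q)) ≤ q * (165 * θ j * ce x q) := by
              apply mul_le_mul_of_nonneg_left _ hqR.le
              linarith
          _ = 165 * θ j * (q * ce x q) := by ring
          _ ≤ 165 * θ j * (2 * x) := by gcongr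
          _ = 330 * θ j * x := by ring
      have hnn : 0 ≤ θ j * x := mul_nonneg hθ0 hxR
      linarith
    have e4 := sum_le_sum e3
    rw [sum_add_distrib (f := fun q : ℕ => (q : ℝ) * cnt (AA f Hf df θ K) (ce x q)),
      sum_const, nsmul_eq_mul] at e4
    have hFF : (#F : ℝ) = cnt (AA f Hf df θ K) x := rfl
    rw [hFF] at hdc'
    have h2jR : (2 : ℝ) ^ j ≤ x := by exact_mod_cast h2j
    have hQx : (2 : ℝ) * Q j ≤ 2 * Q j / 2 ^ j * x := by
      rw [div_mul_eq_mul_div, le_div_iff₀ (by positivity)]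
      gcongr
    have h2S : (1 : ℝ) * x = #S * (1 / #S * x) := by
      field_simp
    calc (#S : ℝ) * cnt (AA f Hf df θ K) x ≤ _ := hdc'
      _ ≤ #S * (4 * β j * x) + 1 * x + (∑ q ∈ S, (q : ℝ) * cnt (AA f Hf df θ K) (ce x q)
          + #S * (2 * Q j + 2000 * θ j * x)) := by
          have := mul_le_mul_of_nonneg_left b12 hSpos.le
          linarith
      _ ≤ #S * (4 * β j * x) + #S * (1 / #S * x) +
          (∑ q ∈ S, (q : ℝ) * cnt (AA f Hf df θ K) (ce x q)
          + #S * (2 * Q j / 2 ^ j * x + 2000 * θ j * x)) := by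
          rw [← h2S]; gcongr
      _ = _ := by ring
  · intro n hn
    rw [hF, mem_filter, mem_Ioc] at hn
    obtain ⟨⟨hn1, hn2⟩, hAn⟩ := hn
    by_cases hc : EE f Hf df K n
    · left; exact hc
    right
    unfold EE Bad at hc
    push Not at hc
    obtain ⟨hG1, hG2⟩ := hc
    have hsplit : #{q ∈ S | P3 f Hf df θ (θ j) K n q} +
        #{q ∈ S | ¬ P3 f Hf df θ (θ j) K n q} = #S := card_filter_add_card_filter_not _
    have := P.pointwise hK hx hn2 (by omega) hAn hG1 hG2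
    rw [← hj, ← hS] at this
    omega

end Pool.Agent.helper937_rot
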