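import Pool.Agent.helper937_rot.Step

set_option autoImplicit false

namespace Pool.Agent.helper937_rot

open Finset
open scoped Classical

/-- bad numbers: windows that are not close to a rotation word -/
def Bad (f : ℕ → ℤ) (Hf : ℕ → ℕ) (df : ℕ → ℝ) (n : ℕ) : Prop := ¬ G f Hf df n

/-- primes in `[5, N]` -/
noncomputable def prm (N : ℕ) : Finset ℕ := {q ∈ Icc 5 N | q.Prime}

/-- parameter facts -/
structure Par (f : ℕ → ℤ) (Hf : ℕ → ℕ) (df : ℕ → ℝ) (J₀ : ℕ) (Q M : ℕ → ℕ)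
    (D ε R β : ℕ → ℝ) : Prop where
  hf : ∀ n, f n = 1 ∨ f n = -1
  hm : ∀ a b, a ≠ 0 → b ≠ 0 → f (a * b) = f a * f b
  J2 : 2 ≤ J₀
  win : ∀ j, J₀ ≤ j → ∀ z, j / 2 ≤ Nat.log 2 z → Nat.log 2 z ≤ j + 1 →
    Q j * (M j + 4) ≤ Hf z ∧ df z ≤ D j
  Mpos : ∀ j, J₀ ≤ j → 1 ≤ M j
  eps : ∀ j, J₀ ≤ j → 1 + 2 * D j ≤ ε j * M j
  R0 : ∀ j, 0 ≤ R j
  R_small : ∀ j, J₀ ≤ j → 10 * (Q j : ℝ) * R j < 1
  epsR : ∀ j, J₀ ≤ j → ε j ≤ R j / 4
  R_lo : ∀ j, J₀ ≤ j → ∀ i, j / 2 ≤ i → i ≤ j + 1 → R i ≤ 9 / 2 * R (j + 1)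
  R_anti : ∀ i j, i ≤ j → R j ≤ R i
  Qsmall : ∀ j, J₀ ≤ j → 2 * Q j * 2 ^ (j / 2) ≤ 2 ^ j
  β0 : ∀ j, 0 ≤ β j
  bad : ∀ j, J₀ ≤ j → ∀ z, j / 2 ≤ Nat.log 2 z → Nat.log 2 z ≤ j + 1 →
    (cnt (Bad f Hf df) z : ℝ) ≤ β j * z
  Q5 : ∀ j, J₀ ≤ j → 5 ≤ Q j

variable {f : ℕ → ℤ} {Hf : ℕ → ℕ} {df : ℕ → ℝ} {J₀ : ℕ} {Q M : ℕ → ℕ} {D ε R β : ℕ → ℝ}

lemma prm_nonempty {N : ℕ} (h : 5 ≤ N) : (prm N).Nonempty :=
  ⟨5, by unfold prm; rw [mem_filter, mem_Icc]; exact ⟨⟨le_rfl, h⟩, by norm_num⟩⟩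

lemma mem_prm {N q : ℕ} : q ∈ prm N ↔ (5 ≤ q ∧ q ≤ N) ∧ q.Prime := by
  unfold prm; rw [mem_filter, mem_Icc]

lemma log_small {j x n q Qj : ℕ} (hj : Nat.log 2 x = j) (hx : x ≠ 0)
    (hQ : 2 * Qj * 2 ^ (j / 2) ≤ 2 ^ j) (hq : q ≤ Qj) (hq1 : 1 ≤ q) (h1 : n ≤ x)
    (h2 : x < 2 * n) :
    j / 2 ≤ Nat.log 2 (ce n q) ∧ Nat.log 2 (ce n q) ≤ j ∧ ce n q ≤ x := by
  have a1 := le_mul_ce (n := n) hq1
  have a2 : ce n q ≤ x := by
    have : ce n q ≤ n := by
      by_contra hc
      push Not at hc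
      have b2 := mul_ce_lt (n := n) hq1
      have : q * (n + 1) ≤ q * ce n q := Nat.mul_le_mul_left q hc
      have : q * (n + 1) = q * n + q := by ring
      have : n ≤ q * n := Nat.le_mul_of_pos_left _ (by omega)
      omega
    omega
  have hne : ce n q ≠ 0 := by
    have := ce_pos hq1 (by omega : 1 ≤ n)
    omega
  refine ⟨?_, ?_, a2⟩
  · have h2j : 2 ^ j ≤ x := by rw [← hj]; exact Nat.pow_log_le_self 2 hx
    have : 2 ^ (j / 2) ≤ ce n q := by
      have c1 : 2 * Qj * 2 ^ (j / 2) ≤ 2 * (Qj * ce n q) := by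
        calc 2 * Qj * 2 ^ (j / 2) ≤ 2 ^ j := hQ
          _ ≤ x := h2j
          _ ≤ 2 * n := h2.le
          _ ≤ 2 * (q * ce n q) := Nat.mul_le_mul_left 2 a1
          _ ≤ 2 * (Qj * ce n q) := Nat.mul_le_mul_left 2 (Nat.mul_le_mul_right _ hq)
      have c2 : 2 * Qj * 2 ^ (j / 2) ≤ 2 * Qj * ce n q := by
        calc 2 * Qj * 2 ^ (j / 2) ≤ 2 * (Qj * ce n q) := c1
          _ = 2 * Qj * ce n q := by ring
      exact Nat.le_of_mul_le_mul_left c2 (by omega)
    calc j / 2 = Nat.log 2 (2 ^ (j / 2)) := (Nat.log_pow (by norm_num) _).symm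
      _ ≤ Nat.log 2 (ce n q) := Nat.log_mono_right this
  · rw [← hj]; exact Nat.log_mono_right a2

/-- the pair discrepancy set -/
def FF (f : ℕ → ℤ) (Hf : ℕ → ℕ) (df : ℕ → ℝ) (R : ℕ → ℝ) (K n : ℕ) : Prop :=
  R (Nat.log 2 n) < |sig f Hf df n - sig f Hf df (up K n)|

/-- bad multiplier events -/
def PP (f : ℕ → ℤ) (Hf : ℕ → ℕ) (df : ℕ → ℝ) (R : ℕ → ℝ) (K n q : ℕ) : Prop :=
  FF f Hf df R K (ce n q) ∨ Bad f Hf df (ce n q) ∨ Bad f Hf df (up K (ce n q))

/-- bad top events -/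
def EE (f : ℕ → ℤ) (Hf : ℕ → ℕ) (df : ℕ → ℝ) (K n : ℕ) : Prop :=
  Bad f Hf df n ∨ Bad f Hf df (up K n)

lemma log_n {x n : ℕ} (h1 : n ≤ x) (h2 : x < 2 * n) :
    Nat.log 2 x ≤ Nat.log 2 n + 1 ∧ Nat.log 2 n ≤ Nat.log 2 x := by
  refine ⟨?_, Nat.log_mono_right h1⟩
  rw [← Nat.log_mul_base (by norm_num) (by omega)]
  exact Nat.log_mono_right (by omega)

lemma log_up {K n : ℕ} (hn : 1 ≤ n) :
    Nat.log 2 n ≤ Nat.log 2 (up K n) ∧ Nat.log 2 (up K n) ≤ Nat.log 2 n + 1 := by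
  refine ⟨Nat.log_mono_right (le_up K n), ?_⟩
  rw [← Nat.log_mul_base (by norm_num) (by omega)]
  exact Nat.log_mono_right (by have := up_le K n; omega)

lemma Par.rec_D (P : Par f Hf df J₀ Q M D ε R β) {K x : ℕ} (hK : 1 ≤ K)
    (hx : J₀ ≤ Nat.log 2 x) :
    (#(prm (Q (Nat.log 2 x))) : ℝ) * cnt (FF f Hf df R K) x ≤
      ∑ q ∈ prm (Q (Nat.log 2 x)), (q : ℝ) * cnt (FF f Hf df R K) (ce x q) +
      #(prm (Q (Nat.log 2 x))) * ((12 * β (Nat.log 2 x) + 2 / #(prm (Q (Nat.log 2 x)))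
        + 3 * Q (Nat.log 2 x) / 2 ^ (Nat.log 2 x)) * x) := by
  set j := Nat.log 2 x with hj
  set S := prm (Q j) with hS
  have hx0 : x ≠ 0 := by
    rintro rfl
    have := P.J2
    simp at hj
    omega
  have hS0 : S.Nonempty := prm_nonempty (P.Q5 j hx)
  have hSpos : (0 : ℝ) < #S := by exact_mod_cast hS0.card_pos
  set B : ℕ → Prop := Bad f Hf df with hB
  set F := {n ∈ Ioc (x / 2) x | FF f Hf df R K n} with hF
  have hdc := double_count F S (PP f Hf df R K) (EE f Hf df K) 2 ?_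
  · -- main estimate
    have e1 : #{n ∈ F | EE f Hf df K n} ≤ cnt B x + (cnt B x + cnt B (2 * x)) := by
      have : {n ∈ F | EE f Hf df K n} ⊆
          {n ∈ Ioc (x / 2) x | B n} ∪ {n ∈ Ioc (x / 2) x | B (up K n)} := by
        intro n hn
        rw [mem_filter, hF, mem_filter] at hn
        rw [mem_union, mem_filter, mem_filter]
        rcases hn.2 with h | h
        · left; exact ⟨hn.1.1, h⟩
        · right; exact ⟨hn.1.1, h⟩
      refine (card_le_card this).trans ((card_union_le _ _).trans ?_)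
      exact Nat.add_le_add_left (cnt_up B x K) _
    have e2 : ∀ q ∈ S, #{n ∈ F | PP f Hf df R K n q} ≤
        q * (cnt (FF f Hf df R K) (ce x q) + 1) + (q * (cnt B (ce x q) + 1) +
          q * (cnt B (ce x q) + cnt B (2 * ce x q) + 1)) := by
      intro q hq
      have hq1 : 1 ≤ q := by have := (mem_prm.mp hq).1.1; omega
      have : {n ∈ F | PP f Hf df R K n q} ⊆
          {n ∈ Ioc (x / 2) x | FF f Hf df R K (ce n q)} ∪
          ({n ∈ Ioc (x / 2) x | B (ce n q)} ∪ {n ∈ Ioc (x / 2) x | B (up K (ce n q))}) := by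
        intro n hn
        rw [mem_filter, hF, mem_filter] at hn
        rw [mem_union, mem_union, mem_filter, mem_filter, mem_filter]
        rcases hn.2 with h | h | h
        · left; exact ⟨hn.1.1, h⟩
        · right; left; exact ⟨hn.1.1, h⟩
        · right; right; exact ⟨hn.1.1, h⟩
      refine (card_le_card this).trans ((card_union_le _ _).trans ?_)
      apply Nat.add_le_add (cnt_ce _ x hq1)
      refine (card_union_le _ _).trans ?_
      exact Nat.add_le_add (cnt_ce _ x hq1) (cnt_ce_up B x K hq1)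
    have hFle : #F ≤ x := by
      have := cnt_le_self (FF f Hf df R K) x
      exact this
    have hdc' : (#S : ℝ) * #F ≤ #S * (cnt B x + (cnt B x + cnt B (2 * x))) + 2 * x +
        ∑ q ∈ S, ((q : ℝ) * (cnt (FF f Hf df R K) (ce x q) + 1) + (q * (cnt B (ce x q) + 1) +
          q * (cnt B (ce x q) + cnt B (2 * ce x q) + 1))) := by
      have : #S * #F ≤ #S * (cnt B x + (cnt B x + cnt B (2 * x))) + 2 * x +
        ∑ q ∈ S, (q * (cnt (FF f Hf df R K) (ce x q) + 1) + (q * (cnt B (ce x q) + 1) +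
          q * (cnt B (ce x q) + cnt B (2 * ce x q) + 1))) := by
        refine hdc.trans ?_
        apply Nat.add_le_add
        · apply Nat.add_le_add
          · exact Nat.mul_le_mul_left _ e1
          · exact Nat.mul_le_mul_left _ hFle
        · exact sum_le_sum e2
      exact_mod_cast this
    have hlogx : j / 2 ≤ Nat.log 2 x ∧ Nat.log 2 x ≤ j + 1 := by omega
    have hlog2x : j / 2 ≤ Nat.log 2 (2 * x) ∧ Nat.log 2 (2 * x) ≤ j + 1 := by
      rw [mul_comm, Nat.log_mul_base (by norm_num) hx0]; omega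
    have b1 := P.bad j hx x hlogx.1 hlogx.2
    have b2 := P.bad j hx (2 * x) hlog2x.1 hlog2x.2
    have hβ := P.β0 j
    have hxR : (0 : ℝ) ≤ x := Nat.cast_nonneg x
    have b12 : (cnt B x : ℝ) + (cnt B x + cnt B (2 * x)) ≤ 4 * β j * x := by
      push_cast at b2
      have c1 : (cnt B x : ℝ) ≤ β j * x := b1
      have c2 : (cnt B (2 * x) : ℝ) ≤ β j * (2 * x) := b2
      nlinarith
    have e3 : ∀ q ∈ S, ((q : ℝ) * (cnt (FF f Hf df R K) (ce x q) + 1) + (q * (cnt B (ce x q) + 1) +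
          q * (cnt B (ce x q) + cnt B (2 * ce x q) + 1))) ≤
        q * cnt (FF f Hf df R K) (ce x q) + (3 * Q j + 8 * β j * x) := by
      intro q hq
      have hq' := mem_prm.mp hq
      have hq1 : 1 ≤ q := by omega
      have hqQ : (q : ℝ) ≤ Q j := by exact_mod_cast hq'.1.2
      obtain ⟨l1, l2, l3⟩ := log_small (j := j) (x := x) (n := x) (q := q) hj.symm hx0
        (P.Qsmall j hx) hq'.1.2 hq1 le_rfl (by omega)
      have hne : ce x q ≠ 0 := by
        have := ce_pos hq1 (by omega : 1 ≤ x); omega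
      have b3 := P.bad j hx (ce x q) l1 (by omega)
      have b4 := P.bad j hx (2 * ce x q) (by
        rw [mul_comm, Nat.log_mul_base (by norm_num) hne]; omega) (by
        rw [mul_comm, Nat.log_mul_base (by norm_num) hne]; omega)
      push_cast at b4
      have c3 : (cnt B (ce x q) : ℝ) ≤ β j * ce x q := b3
      have c4 : (cnt B (2 * ce x q) : ℝ) ≤ β j * (2 * ce x q) := b4
      have hqce : (q : ℝ) * ce x q ≤ 2 * x := by
        have h1 := mul_ce_lt (n := x) (q := q) hq1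
        have h2 : q ≤ x := by
          have := P.Qsmall j hx
          have h3 : 2 ^ j ≤ x := by rw [hj]; exact Nat.pow_log_le_self 2 hx0
          have h4 : 1 ≤ 2 ^ (j / 2) := Nat.one_le_two_pow
          have h5 : Q j ≤ 2 * Q j * 2 ^ (j / 2) := by nlinarith
          omega
        have : q * ce x q ≤ 2 * x := by omega
        exact_mod_cast this
      have hq0 : (0 : ℝ) ≤ q := Nat.cast_nonneg q
      have f1 : (q : ℝ) * (cnt B (ce x q) + (cnt B (ce x q) + cnt B (2 * ce x q))) ≤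
          8 * β j * x := by
        have : (cnt B (ce x q) : ℝ) + (cnt B (ce x q) + cnt B (2 * ce x q)) ≤
            4 * β j * ce x q := by linarith
        calc (q : ℝ) * (cnt B (ce x q) + (cnt B (ce x q) + cnt B (2 * ce x q)))
            ≤ q * (4 * β j * ce x q) := by gcongr
          _ = 4 * β j * (q * ce x q) := by ring
          _ ≤ 4 * β j * (2 * x) := by gcongr
          _ = 8 * β j * x := by ring
      nlinarith
    have e4 := sum_le_sum e3
    rw [sum_add_distrib (f := fun q : ℕ => (q : ℝ) * cnt (FF f Hf df R K) (ce x q)),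
      sum_const, nsmul_eq_mul] at e4
    have hFF : (#F : ℝ) = cnt (FF f Hf df R K) x := rfl
    rw [hFF] at hdc'
    have h2j : (2 : ℝ) ^ j ≤ x := by
      have : 2 ^ j ≤ x := by rw [hj]; exact Nat.pow_log_le_self 2 hx0
      exact_mod_cast this
    have hQx : (3 : ℝ) * Q j ≤ 3 * Q j / 2 ^ j * x := by
      rw [div_mul_eq_mul_div, le_div_iff₀ (by positivity)]
      gcongr
    have h2S : (2 : ℝ) * x = #S * (2 / #S * x) := by
      field_simp
    calc (#S : ℝ) * cnt (FF f Hf df R K) x ≤ _ := hdc'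
      _ ≤ #S * (4 * β j * x) + 2 * x + (∑ q ∈ S, (q : ℝ) * cnt (FF f Hf df R K) (ce x q)
          + #S * (3 * Q j + 8 * β j * x)) := by
          have := mul_le_mul_of_nonneg_left b12 hSpos.le
          linarith
      _ ≤ #S * (4 * β j * x) + #S * (2 / #S * x) +
          (∑ q ∈ S, (q : ℝ) * cnt (FF f Hf df R K) (ce x q)
          + #S * (3 * Q j / 2 ^ j * x + 8 * β j * x)) := by
          rw [← h2S]; gcongr
      _ = _ := by ring
  · -- the pointwise statement
    intro n hn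
    rw [hF, mem_filter, mem_Ioc] at hn
    obtain ⟨⟨hn1, hn2⟩, hFn⟩ := hn
    have hn2x : x < 2 * n := by omega
    by_cases hc : EE f Hf df K n
    · left; exact hc
    right
    unfold EE Bad at hc
    push Not at hc
    obtain ⟨hG1, hG2⟩ := hc
    set T := {q ∈ S | ¬ PP f Hf df R K n q} with hT
    have hsplit : #{q ∈ S | PP f Hf df R K n q} + #T = #S := by
      rw [hT]
      exact card_filter_add_card_filter_not _
    suffices hT2 : #T ≤ 2 by omega
    by_contra hcon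
    push Not at hcon
    -- contradiction with dstep
    obtain ⟨l5, l6⟩ := log_n hn2 hn2x
    rw [← hj] at l5 l6
    have hn0 : 1 ≤ n := by omega
    obtain ⟨u1, u2⟩ := log_up (K := K) hn0
    have w1 := P.win j hx n (by have := P.J2; omega) (by omega)
    have w2 := P.win j hx (up K n) (by have := P.J2; omega) (by omega)
    have hTl : ∀ q ∈ T, (j / 2 ≤ Nat.log 2 (ce n q) ∧ Nat.log 2 (ce n q) ≤ j ∧ ce n q ≤ x) ∧
        1 ≤ ce n q := by
      intro q hq
      rw [hT, mem_filter] at hq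
      have hq' := mem_prm.mp hq.1
      exact ⟨log_small (j := j) hj.symm hx0 (P.Qsmall j hx) hq'.1.2 (by omega) hn2 hn2x,
        ce_pos (by omega) hn0⟩
    have hd := dstep (f := f) (Hf := Hf) (df := df) P.hf P.hm (K := K) (n := n) (Q := Q j)
      (M := M j) (κ := 9 / 2 * R j) (ε := ε j) hK hn0 (P.Mpos j hx) hG1 hG2 T (by omega)
      (by
        intro q hq
        rw [hT, mem_filter] at hq
        have hq' := mem_prm.mp hq.1
        exact ⟨hq'.2, hq'.1.1, hq'.1.2⟩)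
      (by
        intro q hq
        have hl := hTl q hq
        rw [hT, mem_filter] at hq
        have h3 := hq.2
        unfold PP FF Bad at h3
        push Not at h3
        obtain ⟨h3a, h3b, h3c⟩ := h3
        have h4 := P.R_lo j hx _ hl.1.1 (by omega)
        have h5 := P.R_anti j (j + 1) (by omega)
        exact ⟨h3b, h3c, h3a.trans (by linarith)⟩)
      w1.1 w2.1
      (by
        intro q hq
        have hl := hTl q hq
        obtain ⟨v1, v2⟩ := log_up (K := K) hl.2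
        have w3 := (P.win j hx (ce n q) hl.1.1 (by omega)).1
        have w4 := (P.win j hx (up K (ce n q)) (by omega) (by omega)).1
        have h5 := P.Q5 j hx
        have h6 : 5 * (M j + 4) ≤ Q j * (M j + 4) := Nat.mul_le_mul_right _ h5
        constructor <;> omega)
      (by
        intro q hq
        have hl := hTl q hq
        obtain ⟨v1, v2⟩ := log_up (K := K) hl.2
        have w3 := (P.win j hx (ce n q) hl.1.1 (by omega)).2
        have w4 := (P.win j hx (up K (ce n q)) (by omega) (by omega)).2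
        have h5 := P.eps j hx
        constructor
        · linarith [w1.2]
        · linarith [w2.2])
      (by
        have h1 := P.R_small j hx
        have h2 := P.epsR j hx
        have h3 : (0 : ℝ) ≤ Q j := Nat.cast_nonneg _
        nlinarith)
    have h2 := P.epsR j hx
    have h3 : R j ≤ R (Nat.log 2 n) := P.R_anti _ _ l6
    unfold FF at hFn
    linarith

end Pool.Agent.helper937_rot
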