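import Pool.Agent.helper937_rot.Change

set_option autoImplicit false

namespace Pool.Agent.helper937_rot

open Finset
open scoped Classical

/-- more parameter facts -/
structure Par2 (f : ℕ → ℤ) (Hf : ℕ → ℕ) (df : ℕ → ℝ) (J₀ : ℕ) (Q M : ℕ → ℕ)
    (D ε R β θ : ℕ → ℝ) : Prop extends Par f Hf df J₀ Q M D ε R β where
  θ0 : ∀ j, 0 ≤ θ j
  θ_small : ∀ j, J₀ ≤ j → 10 * (Q j : ℝ) * θ j < 1
  epsθ : ∀ j, J₀ ≤ j → ε j ≤ θ (j + 1) / 4
  Wsmall : ∀ j, J₀ ≤ j → Q j * (M j + 4) ≤ 2 ^ (j / 2)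
  θ_lo : ∀ j, J₀ ≤ j → ∀ i, j / 2 ≤ i → i ≤ j + 1 → θ i ≤ 9 / 2 * θ (j + 1)
  θ_anti : ∀ i j, i ≤ j → θ j ≤ θ i
  ratio : ∀ C : ℝ, ∃ J, ∀ j, J ≤ j → C * R j ≤ θ j
  M2 : ∀ j, J₀ ≤ j → 2 ≤ M j
  D0 : ∀ j, 0 ≤ D j
  Qinf : ∀ C : ℕ, ∃ J, ∀ j, J ≤ j → C ≤ Q j
  sβ : Summable β
  sP : Summable fun j => (1 : ℝ) / #(prm (Q j))
  sQ : Summable fun j => (Q j : ℝ) / 2 ^ j
  sθ : Summable θ

variable {f : ℕ → ℤ} {Hf : ℕ → ℕ} {df : ℕ → ℝ} {J₀ : ℕ} {Q M : ℕ → ℕ} {D ε R β θ : ℕ → ℝ}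

lemma up_ce_self {K n : ℕ} (hK : 1 ≤ K) (hn : 1 ≤ n) :
    up K n ≤ (K + 1) * ce n K ∧ (K + 1) * ce n K ≤ up K n + K := by
  have h1 := le_mul_ce (n := n) hK
  have h2 := mul_ce_lt (n := n) hK
  have h3 := ce_pos (n := n) hK hn
  have e : (K + 1) * ce n K = K * ce n K + ce n K := by ring
  have e2 : up K n = n + n / K := rfl
  rw [e, e2]
  have a1 : n / K ≤ ce n K := by
    apply Nat.div_le_of_le_mul
    exact h1
  have a2 : ce n K ≤ n / K + 1 := by
    have : K * ce n K < K * (n / K + 2) := by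
      have b1 := Nat.div_add_mod n K
      have b2 := Nat.mod_lt n (by omega : 0 < K)
      rw [Nat.mul_add]
      omega
    have := Nat.lt_of_mul_lt_mul_left this
    omega
  constructor <;> omega

/-- Comparing the multipliers `K` and `K+1`. -/
lemma Par.slope_K (P : Par f Hf df J₀ Q M D ε R β) {K x n : ℕ} (hK : 1 ≤ K)
    (hx : J₀ ≤ Nat.log 2 x) (hKQ : K + 1 ≤ Q (Nat.log 2 x)) (h1 : n ≤ x) (h2 : x < 2 * n)
    (g1 : G f Hf df n) (g2 : G f Hf df (up K n)) (g3 : G f Hf df (ce n K))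
    (hF : ¬ FF f Hf df R K n) :
    tau ((2 * K + 1 : ℕ) * sig f Hf df n) ≤ 5 * (2 * K + 1) * (K + 1) * R (Nat.log 2 x) := by
  set j := Nat.log 2 x with hj
  have hx0 : x ≠ 0 := by omega
  have hn : 1 ≤ n := by omega
  obtain ⟨l1, l2, l3⟩ := log_small (j := j) (x := x) (n := n) (q := K) hj.symm hx0
    (P.Qsmall j hx) (by omega) hK h1 h2
  obtain ⟨l5, l6⟩ := log_n h1 h2
  rw [← hj] at l5 l6
  obtain ⟨u1, u2⟩ := log_up (K := K) hn
  have hJ2 := P.J2
  have w1 := P.win j hx n (by omega) (by omega)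
  have w2 := P.win j hx (up K n) (by omega) (by omega)
  have w3 := P.win j hx (ce n K) l1 (by omega)
  have hM := P.Mpos j hx
  have hM' : (0 : ℝ) < M j := by exact_mod_cast hM
  have heps := P.eps j hx
  have hQ5 := P.Q5 j hx
  have hQM : (K + 1) * (M j + 4) ≤ Q j * (M j + 4) := Nat.mul_le_mul_right _ hKQ
  have hKM : K * (M j + 1) ≤ (K + 1) * (M j + 4) := Nat.mul_le_mul (by omega) (by omega)
  have h5M : 5 * (M j + 4) ≤ Q j * (M j + 4) := Nat.mul_le_mul_right _ hQ5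
  have r1 := rel_down P.hf P.hm hn hK g1 g3 (M := M j) (hKM.trans (hQM.trans w1.1)) (by omega)
  obtain ⟨c1, c2⟩ := up_ce_self (K := K) (n := n) hK hn
  have r2 : |tau ((K + 1 : ℕ) * sig f Hf df (up K n)) - sig f Hf df (ce n K)| * M j ≤
      1 + df (up K n) + df (ce n K) := by
    refine g2.spec.rel P.hf P.hm g3.spec (a := (K + 1) * ce n K - up K n) (b := 0) (by omega)
      (by have := ce_pos (n := n) hK hn; omega) (by rw [add_zero]; omega) ?_ (by omega)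
    have : (K + 1) * (M j + 4) = (K + 1) * M j + 4 * (K + 1) := by ring
    omega
  have r1' : |tau (K * sig f Hf df n) - sig f Hf df (ce n K)| ≤ ε j := by
    refine le_of_mul_le_mul_right (r1.trans ?_) hM'
    linarith [w1.2, w3.2]
  have r2' : |tau ((K + 1 : ℕ) * sig f Hf df (up K n)) - sig f Hf df (ce n K)| ≤ ε j := by
    refine le_of_mul_le_mul_right (r2.trans ?_) hM'
    linarith [w2.2, w3.2]
  have hRn : R (Nat.log 2 n) ≤ 9 / 2 * R j := by
    have := P.R_lo j hx (Nat.log 2 n) (by omega) (by omega)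
    have h5 := P.R_anti j (j + 1) (by omega)
    linarith
  have hD : |sig f Hf df n - sig f Hf df (up K n)| ≤ 9 / 2 * R j := by
    unfold FF at hF
    push Not at hF
    exact hF.trans hRn
  have r3 : |tau ((K + 1 : ℕ) * sig f Hf df (up K n)) - tau ((K + 1 : ℕ) * sig f Hf df n)| ≤
      (K + 1) * (9 / 2 * R j) := by
    refine (abs_tau_sub_tau_le _ _).trans ?_
    rw [← mul_sub, abs_mul, abs_sub_comm]
    have : |((K + 1 : ℕ) : ℝ)| = (K + 1 : ℝ) := by
      push_cast; exact abs_of_nonneg (by positivity)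
    rw [this]
    gcongr
  have hR0 := P.R0 j
  have heR := P.epsR j hx
  have hKR : (1 : ℝ) ≤ K + 1 := by
    have : (0 : ℝ) ≤ K := Nat.cast_nonneg K
    linarith
  have r4 : |tau ((K + 1 : ℕ) * sig f Hf df n) - tau (K * sig f Hf df n)| ≤
      5 * (K + 1) * R j := by
    have h2e : 2 * ε j ≤ (K + 1) * (1 / 2 * R j) := by
      calc 2 * ε j ≤ 1 * (1 / 2 * R j) := by linarith
        _ ≤ (K + 1) * (1 / 2 * R j) := by gcongr
    rw [abs_le] at r1' r2' r3 ⊢
    constructor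
    · nlinarith [r1'.1, r1'.2, r2'.1, r2'.2, r3.1, r3.2]
    · nlinarith [r1'.1, r1'.2, r2'.1, r2'.2, r3.1, r3.2]
  have hpos : 0 ≤ 5 * ((K : ℝ) + 1) * R j := by positivity
  rcases tau_sub_or_add r4 with h | h
  · have e : ((K + 1 : ℕ) : ℝ) * sig f Hf df n - K * sig f Hf df n = sig f Hf df n := by
      push_cast; ring
    rw [e] at h
    refine (tau_nat_mul_le _ _).trans ?_
    push_cast
    calc (2 * (K : ℝ) + 1) * tau (sig f Hf df n) ≤ (2 * K + 1) * (5 * (K + 1) * R j) := by gcongr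
      _ = _ := by ring
  · have e : ((K + 1 : ℕ) : ℝ) * sig f Hf df n + K * sig f Hf df n =
        ((2 * K + 1 : ℕ) : ℝ) * sig f Hf df n := by
      push_cast; ring
    rw [e] at h
    refine h.trans ?_
    have : (1 : ℝ) ≤ 2 * K + 1 := by
      have : (0 : ℝ) ≤ K := Nat.cast_nonneg K
      linarith
    calc 5 * ((K : ℝ) + 1) * R j = 1 * (5 * (K + 1) * R j) := by ring
      _ ≤ (2 * K + 1) * (5 * (K + 1) * R j) := by gcongr
      _ = _ := by ring

/-- not (good with small slope) -/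
def NS (f : ℕ → ℤ) (Hf : ℕ → ℕ) (df : ℕ → ℝ) (θ : ℕ → ℝ) (n : ℕ) : Prop :=
  ¬ (G f Hf df n ∧ sig f Hf df n ≤ θ (Nat.log 2 n))

lemma Par2.slope_zero (P : Par2 f Hf df J₀ Q M D ε R β θ) {η : ℝ} (hη : 0 < η) :
    ∃ X₁, ∀ x, X₁ ≤ x → (cnt (NS f Hf df θ) x : ℝ) ≤ η * x := by
  obtain ⟨J₁, hJ₁⟩ := P.toPar.D_small P.sβ P.sP P.sQ (η := η / 8) (by positivity)
  set K := 2 ^ J₁ with hK
  have hK1 : 1 ≤ K := Nat.one_le_two_pow
  have hlK : J₁ ≤ Nat.log 2 K := by rw [hK, Nat.log_pow (by norm_num)]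
  have hlK' : J₁ ≤ Nat.log 2 (K + 1) := hlK.trans (Nat.log_mono_right (by omega))
  obtain ⟨Ja, hJa⟩ := P.Qinf (K + 2)
  obtain ⟨Jb, hJb⟩ := P.ratio (10 * (K + 1) * (2 * K + 3) * (K + 2))
  -- β tends to zero
  have hβ0 : ∃ Jc, ∀ j, Jc ≤ j → β j ≤ η / 100 := by
    have := P.sβ.tendsto_atTop_zero
    have := this.eventually (Iic_mem_nhds (show (0 : ℝ) < η / 100 by positivity))
    rw [Filter.eventually_atTop] at this
    obtain ⟨a, ha⟩ := this
    exact ⟨a, fun j hj => ha j hj⟩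
  obtain ⟨Jc, hJc⟩ := hβ0
  obtain ⟨X₂, hX₂⟩ := exists_nat_ge ((2 * K + 1) * (4 / η))
  refine ⟨max (2 ^ (max (max Ja Jb) (max Jc J₀))) (X₂ + 1), fun x hx => ?_⟩
  have hx1 : 2 ^ (max (max Ja Jb) (max Jc J₀)) ≤ x := (le_max_left _ _).trans hx
  have hx2 : X₂ + 1 ≤ x := (le_max_right _ _).trans hx
  have hx0 : x ≠ 0 := by omega
  set j := Nat.log 2 x with hj
  have hjj : max (max Ja Jb) (max Jc J₀) ≤ j := by
    rw [hj]
    calc _ = Nat.log 2 (2 ^ (max (max Ja Jb) (max Jc J₀))) := (Nat.log_pow (by norm_num) _).symm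
      _ ≤ Nat.log 2 x := Nat.log_mono_right hx1
  have j1 : Ja ≤ j := le_trans (le_trans (le_max_left _ _) (le_max_left _ _)) hjj
  have j2 : Jb ≤ j := le_trans (le_trans (le_max_right _ _) (le_max_left _ _)) hjj
  have j3 : Jc ≤ j := le_trans (le_trans (le_max_left _ _) (le_max_right _ _)) hjj
  have j4 : J₀ ≤ j := le_trans (le_trans (le_max_right _ _) (le_max_right _ _)) hjj
  have hQ := hJa j j1
  have hrat := hJb j j2
  have hβ := hJc j j3
  -- pointwise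
  have hpt : ∀ n, n ≤ x → x < 2 * n → NS f Hf df θ n →
      (Bad f Hf df n ∨ Bad f Hf df (up K n) ∨ Bad f Hf df (ce n K) ∨ FF f Hf df R K n ∨
      Bad f Hf df (up (K + 1) n) ∨ Bad f Hf df (ce n (K + 1)) ∨ FF f Hf df R (K + 1) n) := by
    intro n h1 h2 hNS
    by_contra hc
    push Not at hc
    obtain ⟨a1, a2, a3, a4, a5, a6, a7⟩ := hc
    unfold Bad at a1 a2 a3 a5 a6
    push Not at a1 a2 a3 a5 a6
    have s1 := P.toPar.slope_K hK1 j4 (by rw [← hj]; omega) h1 h2 a1 a2 a3 a4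
    have s2 := P.toPar.slope_K (by omega : 1 ≤ K + 1) j4 (by rw [← hj]; omega) h1 h2 a1 a5 a6 a7
    rw [← hj] at s1 s2
    push_cast at s1 s2
    set σ := sig f Hf df n with hσ
    have t1 : tau (2 * σ) ≤ 5 * (2 * K + 1) * (K + 1) * R j + 5 * (2 * (K + 1) + 1) * (K + 1 + 1) * R j := by
      have e : 2 * σ = (2 * ((K : ℝ) + 1) + 1) * σ + (-((2 * (K : ℝ) + 1) * σ)) := by ring
      rw [e]
      refine (tau_add_le _ _).trans ?_
      rw [tau_neg]
      linarith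
    have t2 : tau σ ≤ 5 * (2 * K + 1) * (K + 1) * R j +
        K * (5 * (2 * K + 1) * (K + 1) * R j + 5 * (2 * (K + 1) + 1) * (K + 1 + 1) * R j) := by
      have e : σ = (2 * (K : ℝ) + 1) * σ + (-((K : ℕ) * (2 * σ))) := by ring
      rw [e]
      refine (tau_add_le _ _).trans ?_
      rw [tau_neg]
      have := tau_nat_mul_le K (2 * σ)
      have h3 : (K : ℝ) * tau (2 * σ) ≤ K * (5 * (2 * K + 1) * (K + 1) * R j +
        5 * (2 * (K + 1) + 1) * (K + 1 + 1) * R j) := by gcongr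
      linarith
    rw [tau_of_mem a1.nonneg a1.le_half] at t2
    have hR0 := P.R0 j
    have hKnn : (0 : ℝ) ≤ K := Nat.cast_nonneg K
    have t3 : σ ≤ 10 * (K + 1) * (2 * K + 3) * (K + 2) * R j := by
      refine t2.trans ?_
      have : 5 * (2 * (K : ℝ) + 1) * (K + 1) +
        K * (5 * (2 * K + 1) * (K + 1) + 5 * (2 * (K + 1) + 1) * (K + 1 + 1)) ≤
          10 * (K + 1) * (2 * K + 3) * (K + 2) := by
        have k2 : 0 ≤ (K : ℝ) * K := mul_nonneg hKnn hKnn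
        have k3 : 0 ≤ (K : ℝ) * (K * K) := mul_nonneg hKnn k2
        nlinarith
      calc _ = (5 * (2 * (K : ℝ) + 1) * (K + 1) +
        K * (5 * (2 * K + 1) * (K + 1) + 5 * (2 * (K + 1) + 1) * (K + 1 + 1))) * R j := by ring
        _ ≤ _ := by gcongr
    apply hNS
    refine ⟨a1, ?_⟩
    have h6 := (log_n h1 h2).2
    rw [← hj] at h6
    exact t3.trans (hrat.trans (P.θ_anti _ _ h6))
  -- counting
  have hcov : {n ∈ Ioc (x / 2) x | NS f Hf df θ n} ⊆
      {n ∈ Ioc (x / 2) x | Bad f Hf df n} ∪ ({n ∈ Ioc (x / 2) x | Bad f Hf df (up K n)} ∪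
      ({n ∈ Ioc (x / 2) x | Bad f Hf df (ce n K)} ∪ ({n ∈ Ioc (x / 2) x | FF f Hf df R K n} ∪
      ({n ∈ Ioc (x / 2) x | Bad f Hf df (up (K + 1) n)} ∪
      ({n ∈ Ioc (x / 2) x | Bad f Hf df (ce n (K + 1))} ∪
        {n ∈ Ioc (x / 2) x | FF f Hf df R (K + 1) n}))))) := by
    intro n hn
    rw [mem_filter, mem_Ioc] at hn
    have := hpt n hn.1.2 (by omega) hn.2
    simp only [mem_union, mem_filter, mem_Ioc]
    tauto
  have hc := card_le_card hcov
  have e1 : #{n ∈ Ioc (x / 2) x | Bad f Hf df n} = cnt (Bad f Hf df) x := rfl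
  have e2 := cnt_up (Bad f Hf df) x K
  have e3 := cnt_ce (Bad f Hf df) x hK1
  have e4 := hJ₁ K hlK x
  have e5 := cnt_up (Bad f Hf df) x (K + 1)
  have e6 := cnt_ce (Bad f Hf df) x (by omega : 1 ≤ K + 1)
  have e7 := hJ₁ (K + 1) hlK' x
  have hcc : cnt (NS f Hf df θ) x ≤ cnt (Bad f Hf df) x +
      ((cnt (Bad f Hf df) x + cnt (Bad f Hf df) (2 * x)) +
      (K * (cnt (Bad f Hf df) (ce x K) + 1) + (cnt (FF f Hf df R K) x +
      ((cnt (Bad f Hf df) x + cnt (Bad f Hf df) (2 * x)) +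
      ((K + 1) * (cnt (Bad f Hf df) (ce x (K + 1)) + 1) + cnt (FF f Hf df R (K + 1)) x))))) := by
    refine hc.trans ?_
    refine (card_union_le _ _).trans (Nat.add_le_add e1.le ?_)
    refine (card_union_le _ _).trans (Nat.add_le_add e2 ?_)
    refine (card_union_le _ _).trans (Nat.add_le_add e3 ?_)
    refine (card_union_le _ _).trans (Nat.add_le_add le_rfl ?_)
    refine (card_union_le _ _).trans (Nat.add_le_add e5 ?_)
    refine (card_union_le _ _).trans (Nat.add_le_add e6 le_rfl)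
  have hcR : (cnt (NS f Hf df θ) x : ℝ) ≤ cnt (Bad f Hf df) x +
      ((cnt (Bad f Hf df) x + cnt (Bad f Hf df) (2 * x)) +
      (K * (cnt (Bad f Hf df) (ce x K) + 1) + (cnt (FF f Hf df R K) x +
      ((cnt (Bad f Hf df) x + cnt (Bad f Hf df) (2 * x)) +
      ((K + 1) * (cnt (Bad f Hf df) (ce x (K + 1)) + 1) + cnt (FF f Hf df R (K + 1)) x))))) := by
    exact_mod_cast hcc
  have hJ2 := P.J2
  have b1 := P.bad j j4 x (by omega) (by omega)
  have hl2 : Nat.log 2 (2 * x) = j + 1 := by rw [mul_comm, Nat.log_mul_base (by norm_num) hx0]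
  have b2 := P.bad j j4 (2 * x) (by omega) (by omega)
  have bce : ∀ q, 1 ≤ q → q ≤ K + 1 → (q : ℝ) * (cnt (Bad f Hf df) (ce x q) + 1) ≤
      β j * (x + (K + 1)) + (K + 1) := by
    intro q hq1 hq2
    obtain ⟨l1, l2, l3⟩ := log_small (j := j) (x := x) (n := x) (q := q) hj.symm hx0
      (P.Qsmall j j4) (by omega) hq1 le_rfl (by omega)
    have b3 := P.bad j j4 (ce x q) l1 (by omega)
    have h2 : (q : ℝ) * ce x q ≤ x + (K + 1) := by
      have h3 := mul_ce_lt (n := x) (q := q) hq1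
      have : q * ce x q ≤ x + (K + 1) := by omega
      exact_mod_cast this
    have hq0 : (0 : ℝ) ≤ q := Nat.cast_nonneg q
    have hqK : (q : ℝ) ≤ K + 1 := by exact_mod_cast hq2
    have hb := P.β0 j
    calc (q : ℝ) * (cnt (Bad f Hf df) (ce x q) + 1) ≤ q * (β j * ce x q + 1) := by gcongr
      _ = β j * (q * ce x q) + q := by ring
      _ ≤ β j * (x + (K + 1)) + (K + 1) := by gcongr
  have b3 := bce K hK1 (by omega)
  have b4 := bce (K + 1) (by omega) le_rfl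
  push_cast at b2 b4
  have hxR : (0 : ℝ) < x := by
    have : 0 < x := by omega
    exact_mod_cast this
  have hb := P.β0 j
  have hKx : (2 * (K : ℝ) + 1) * (4 / η) ≤ x := by
    refine hX₂.trans ?_
    exact_mod_cast (by omega : X₂ ≤ x)
  have hKx' : (2 * (K : ℝ) + 2) ≤ η / 2 * x := by
    have h7 : (2 * (K : ℝ) + 1) * 4 ≤ x * η := by
      have := mul_le_mul_of_nonneg_right hKx hη.le
      calc (2 * (K : ℝ) + 1) * 4 = (2 * K + 1) * (4 / η) * η := by field_simp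
        _ ≤ x * η := this
    have hKnn : (1 : ℝ) ≤ K := by exact_mod_cast hK1
    linarith
  have hβx : β j * x ≤ η / 100 * x := by gcongr
  have hKxx : ((K : ℝ) + 1) ≤ x := by
    have : K + 1 ≤ x := by
      have h8 : Q j ≤ x := by
        have := P.Qsmall j j4
        have h3 : 2 ^ j ≤ x := by rw [hj]; exact Nat.pow_log_le_self 2 hx0
        have h4 : 1 ≤ 2 ^ (j / 2) := Nat.one_le_two_pow
        have h5 : Q j ≤ 2 * Q j * 2 ^ (j / 2) :=
          le_trans (by omega : Q j ≤ 2 * Q j) (Nat.le_mul_of_pos_right _ (by omega))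
        exact h5.trans (this.trans h3)
      exact le_trans (by omega) (hQ.trans h8)
    exact_mod_cast this
  have hbK : β j * ((K : ℝ) + 1) ≤ β j * x := by gcongr
  have b3' : β j * ((x : ℝ) + (K + 1)) ≤ 2 * (β j * x) := by
    have e : β j * ((x : ℝ) + (K + 1)) = β j * x + β j * (K + 1) := by ring
    linarith
  have b4' : (cnt (Bad f Hf df) x : ℝ) ≤ β j * x := b1
  have b5' : (cnt (Bad f Hf df) (2 * x) : ℝ) ≤ 2 * (β j * x) := by linarith
  linarith

end Pool.Agent.helper937_rot
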