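import Pool.Agent.helper937_rot.Rec

set_option autoImplicit false

namespace Pool.Agent.helper937_rot

open Finset
open scoped Classical

lemma tail_small {w : ℕ → ℝ} (hw : ∀ j, 0 ≤ w j) (hs : Summable w) {ε : ℝ} (hε : 0 < ε) :
    ∃ J, ∀ a b, J ≤ a → ∑ i ∈ Icc a b, w i ≤ ε := by
  rw [summable_iff_vanishing_norm] at hs
  obtain ⟨s, hs⟩ := hs ε hε
  refine ⟨s.sup id + 1, fun a b hab => ?_⟩
  have hd : Disjoint (Icc a b) s := by
    rw [Finset.disjoint_left]
    intro i hi his
    have : i ≤ s.sup id := Finset.le_sup (f := id) his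
    rw [mem_Icc] at hi
    omega
  have := hs _ hd
  rw [Real.norm_eq_abs, abs_of_nonneg (sum_nonneg (fun i _ => hw i))] at this
  exact this.le

variable {f : ℕ → ℤ} {Hf : ℕ → ℕ} {df : ℕ → ℝ} {J₀ : ℕ} {Q M : ℕ → ℕ} {D ε R β : ℕ → ℝ}

lemma Par.D_small (P : Par f Hf df J₀ Q M D ε R β) (s1 : Summable β)
    (s2 : Summable fun j => (1 : ℝ) / #(prm (Q j))) (s3 : Summable fun j => (Q j : ℝ) / 2 ^ j)
    {η : ℝ} (hη : 0 < η) :
    ∃ J₁, ∀ K, J₁ ≤ Nat.log 2 K → ∀ x, (cnt (FF f Hf df R K) x : ℝ) ≤ η * x := by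
  set v : ℕ → ℝ := fun j => 12 * β j + 2 / #(prm (Q j)) + 3 * Q j / 2 ^ j with hv
  have hv0 : ∀ j, 0 ≤ v j := by
    intro j
    have := P.β0 j
    rw [hv]
    positivity
  have hw0 : ∀ j, 0 ≤ v j + (Q j : ℝ) / 2 ^ j := by
    intro j
    have := hv0 j
    positivity
  have hsum : Summable fun j => v j + (Q j : ℝ) / 2 ^ j := by
    refine Summable.add (Summable.add (Summable.add (s1.mul_left 12) ?_) ?_) s3
    · refine (s2.mul_left 2).congr ?_
      intro j
      rw [mul_one_div]
    · refine (s3.mul_left 3).congr ?_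
      intro j
      rw [mul_div_assoc]
  obtain ⟨J, hJ⟩ := tail_small hw0 hsum (lt_min hη one_pos)
  refine ⟨max J J₀, ?_⟩
  intro K hK x
  have hJK : J ≤ Nat.log 2 K := le_trans (le_max_left _ _) hK
  have hJ0K : J₀ ≤ Nat.log 2 K := le_trans (le_max_right _ _) hK
  have hK4 : 4 ≤ K := by
    have h2 : 2 ≤ Nat.log 2 K := P.J2.trans hJ0K
    have hK0 : K ≠ 0 := by
      rintro rfl
      simp at h2
    have := Nat.pow_le_of_le_log hK0 h2
    simpa using this
  have main := scale_recursion (FF f Hf df R K) K 0 0 Q v le_rfl hv0 hK4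
    (by
      intro z _ hz
      have : cnt (FF f Hf df R K) z = 0 := by
        unfold cnt
        rw [card_eq_zero, filter_eq_empty_iff]
        intro n hn
        rw [mem_Ioc] at hn
        unfold FF
        rw [up_eq_self (by omega : n < K), sub_self, abs_zero]
        push Not
        exact P.R0 _
      rw [this]
      simp)
    (by
      intro z hz
      have hlog : J₀ ≤ Nat.log 2 z := hJ0K.trans (Nat.log_mono_right hz)
      refine ⟨prm (Q (Nat.log 2 z)), prm_nonempty (P.Q5 _ hlog), ?_, ?_⟩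
      · intro q hq
        have := mem_prm.mp hq
        exact ⟨this.1.1, this.1.2, Nat.zero_le _⟩
      · exact P.rec_D (by omega) hlog)
    (fun j => ∑ i ∈ Icc (Nat.log 2 K) j, (v i + (Q i : ℝ) / 2 ^ i))
    (fun j _ => rfl)
    (by
      intro j _
      have := hJ (Nat.log 2 K) j hJK
      rw [zero_add]
      exact this.trans (min_le_right _ _))
    x (Nat.zero_le _)
  refine main.trans ?_
  apply mul_le_mul_of_nonneg_right _ (Nat.cast_nonneg x)
  rw [zero_add]
  split_ifs
  · exact (hJ (Nat.log 2 K) _ hJK).trans (min_le_left _ _)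
  · exact hη.le

end Pool.Agent.helper937_rot
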