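import Pool.Agent.helper937_rot.Count

set_option autoImplicit false

namespace Pool.Agent.helper937_rot

open Finset
open scoped Classical

lemma pair_close {y y' κ : ℝ} (hy0 : 0 ≤ y) (hy1 : y ≤ 1 / 2) (hy0' : 0 ≤ y') (hy1' : y' ≤ 1 / 2)
    {S : Finset ℕ} {Q : ℕ} (hS : 3 ≤ #S) (hSp : ∀ q ∈ S, q.Prime ∧ 5 ≤ q ∧ q ≤ Q)
    (h : ∀ q ∈ S, |tau (q * y) - tau (q * y')| ≤ κ) (hκ : 2 * (Q : ℝ) * κ < 1) :
    |y - y'| ≤ κ / 5 := by
  have hκ0 : 0 ≤ κ := by
    obtain ⟨q, hq⟩ : S.Nonempty := card_pos.mp (by omega)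
    exact (abs_nonneg _).trans (h q hq)
  have hcov : S ⊆ {q ∈ S | tau (q * (y - y')) ≤ κ} ∪ {q ∈ S | tau (q * (y + y')) ≤ κ} := by
    intro q hq
    rw [mem_union, mem_filter, mem_filter]
    rcases tau_sub_or_add (h q hq) with h1 | h1
    · left; refine ⟨hq, ?_⟩; rw [mul_sub]; exact h1
    · right; refine ⟨hq, ?_⟩; rw [mul_add]; exact h1
  have hc := (card_le_card hcov).trans (card_union_le _ _)
  have key : ∀ (z : ℝ) (T : Finset ℕ), T ⊆ S → 1 < #T → (∀ q ∈ T, tau (q * z) ≤ κ) →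
      tau z ≤ κ / 5 := by
    intro z T hTS hT hTz
    obtain ⟨a, ha, b, hb, hab⟩ := Finset.one_lt_card.mp hT
    obtain ⟨pa, a5, aQ⟩ := hSp a (hTS ha)
    obtain ⟨pb, b5, bQ⟩ := hSp b (hTS hb)
    have aQ' : (a : ℝ) ≤ Q := by exact_mod_cast aQ
    have bQ' : (b : ℝ) ≤ Q := by exact_mod_cast bQ
    have a5' : (5 : ℝ) ≤ a := by exact_mod_cast a5
    have := tau_le_of_coprime (by omega : 0 < a) (by omega : 0 < b)
      ((Nat.coprime_primes pa pb).mpr hab) (hTz a ha) (hTz b hb) (by nlinarith)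
    refine this.trans ?_
    gcongr
  rcases (by omega : 1 < #(S.filter (fun q : ℕ => tau (q * (y - y')) ≤ κ)) ∨
      1 < #(S.filter (fun q : ℕ => tau (q * (y + y')) ≤ κ))) with h1 | h1
  · have := key (y - y') _ (filter_subset _ _) h1 (fun q hq => (mem_filter.mp hq).2)
    rwa [tau_of_abs_le (abs_le.mpr ⟨by linarith, by linarith⟩)] at this
  · have := key (y + y') _ (filter_subset _ _) h1 (fun q hq => (mem_filter.mp hq).2)
    by_cases hc : y + y' ≤ 1 / 2
    · rw [tau_of_mem (by linarith) hc] at this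
      rw [abs_le]; constructor <;> linarith
    · push Not at hc
      have e : tau (y + y') = 1 - (y + y') := by
        have e1 : tau (y + y') = tau (1 - (y + y')) := by
          rw [← tau_neg (y + y')]
          have : (1 : ℝ) - (y + y') = -(y + y') + ((1 : ℤ) : ℝ) := by push_cast; ring
          rw [this, tau_add_int]
        rw [e1, tau_of_mem (by linarith) (by linarith)]
      rw [e] at this
      rw [abs_le]; constructor <;> linarith

lemma up_ce_bounds {K n q : ℕ} (hK : 1 ≤ K) (hq : 1 ≤ q) :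
    up K n ≤ q * (up K (ce n q) + 1) ∧ q * (up K (ce n q) + 1) < up K n + 3 * q := by
  set m := ce n q with hm
  have h1 : n ≤ q * m := le_mul_ce hq
  have h2 : q * m < n + q := mul_ce_lt hq
  have e1 : up K n = n + n / K := rfl
  have e2 : q * (up K m + 1) = q * m + q * (m / K) + q := by
    show q * (m + m / K + 1) = _
    ring
  rw [e1, e2]
  have a1 : n / K < q * (m / K + 1) := by
    rw [Nat.div_lt_iff_lt_mul (by omega)]
    have : m < K * (m / K + 1) := by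
      have := Nat.div_add_mod m K
      have := Nat.mod_lt m (by omega : 0 < K)
      rw [Nat.mul_add]
      omega
    calc n ≤ q * m := h1
      _ < q * (K * (m / K + 1)) := Nat.mul_lt_mul_of_pos_left this (by omega)
      _ = q * (m / K + 1) * K := by ring
  have a2 : q * (m / K) ≤ n / K + q := by
    have b1 : q * (m / K) ≤ (q * m) / K := by
      rw [Nat.le_div_iff_mul_le (by omega)]
      calc q * (m / K) * K = q * (m / K * K) := by ring
        _ ≤ q * m := Nat.mul_le_mul_left q (Nat.div_mul_le_self m K)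
    have b2 : (q * m) / K ≤ (n + q * K) / K := by
      apply Nat.div_le_div_right
      have : q ≤ q * K := Nat.le_mul_of_pos_right _ (by omega)
      omega
    have b3 : (n + q * K) / K = n / K + q := Nat.add_mul_div_right n q (by omega)
    omega
  rw [Nat.mul_add, Nat.mul_one] at a1
  constructor <;> omega

section
variable (f : ℕ → ℤ) (Hf : ℕ → ℕ) (df : ℕ → ℝ)

def G (n : ℕ) : Prop := ∃ y, Good f (Hf n) (df n) n y

noncomputable def sig (n : ℕ) : ℝ := if h : G f Hf df n then h.choose else 0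

variable {f Hf df}

lemma G.spec {n : ℕ} (h : G f Hf df n) : Good f (Hf n) (df n) n (sig f Hf df n) := by
  unfold sig
  rw [dif_pos h]
  exact h.choose_spec

lemma G.nonneg {n : ℕ} (h : G f Hf df n) : 0 ≤ sig f Hf df n := h.spec.1
lemma G.le_half {n : ℕ} (h : G f Hf df n) : sig f Hf df n ≤ 1 / 2 := h.spec.2.1

/-- relation between the window at `n` and the window at `⌈n/q⌉`. -/
lemma rel_down (hf : ∀ n, f n = 1 ∨ f n = -1)
    (hm : ∀ a b, a ≠ 0 → b ≠ 0 → f (a * b) = f a * f b)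
    {n q M : ℕ} (hn : 1 ≤ n) (hq : 1 ≤ q) (h : G f Hf df n) (h' : G f Hf df (ce n q))
    (h1 : q * (M + 1) ≤ Hf n) (h2 : M < Hf (ce n q)) :
    |tau (q * sig f Hf df n) - sig f Hf df (ce n q)| * M ≤ 1 + df n + df (ce n q) := by
  have a1 := le_mul_ce (n := n) hq
  have a2 := mul_ce_lt (n := n) hq
  have a3 := ce_pos hq hn
  refine h.spec.rel hf hm h'.spec (a := q * ce n q - n) (b := 0) hq (by omega) (by
    rw [add_zero]; omega) ?_ (by omega)
  rw [Nat.mul_add, Nat.mul_one] at h1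
  omega

lemma rel_up (hf : ∀ n, f n = 1 ∨ f n = -1)
    (hm : ∀ a b, a ≠ 0 → b ≠ 0 → f (a * b) = f a * f b)
    {K n q M : ℕ} (hK : 1 ≤ K) (hn : 1 ≤ n) (hq : 1 ≤ q) (h : G f Hf df (up K n))
    (h' : G f Hf df (up K (ce n q)))
    (h1 : q * (M + 3) ≤ Hf (up K n)) (h2 : M + 1 < Hf (up K (ce n q))) :
    |tau (q * sig f Hf df (up K n)) - sig f Hf df (up K (ce n q))| * M ≤
      1 + df (up K n) + df (up K (ce n q)) := by
  obtain ⟨a1, a2⟩ := up_ce_bounds (K := K) (n := n) (q := q) hK hq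
  have a3 := ce_pos hq hn
  refine h.spec.rel hf hm h'.spec (a := q * (up K (ce n q) + 1) - up K n) (b := 1) hq
    (by omega) (by omega) ?_ (by omega)
  rw [Nat.mul_add] at h1
  omega

lemma dstep (hf : ∀ n, f n = 1 ∨ f n = -1)
    (hm : ∀ a b, a ≠ 0 → b ≠ 0 → f (a * b) = f a * f b)
    {K n Q M : ℕ} (hK : 1 ≤ K) (hn : 1 ≤ n) (hM : 1 ≤ M) {κ ε : ℝ}
    (hG : G f Hf df n) (hG' : G f Hf df (up K n)) (S : Finset ℕ) (hS : 3 ≤ #S)
    (hSp : ∀ q ∈ S, q.Prime ∧ 5 ≤ q ∧ q ≤ Q)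
    (hSG : ∀ q ∈ S, G f Hf df (ce n q) ∧ G f Hf df (up K (ce n q)) ∧
      |sig f Hf df (ce n q) - sig f Hf df (up K (ce n q))| ≤ κ)
    (hH1 : Q * (M + 4) ≤ Hf n) (hH2 : Q * (M + 4) ≤ Hf (up K n))
    (hH3 : ∀ q ∈ S, M + 1 < Hf (ce n q) ∧ M + 1 < Hf (up K (ce n q)))
    (hd : ∀ q ∈ S, 1 + df n + df (ce n q) ≤ ε * M ∧
      1 + df (up K n) + df (up K (ce n q)) ≤ ε * M)
    (hκ : 2 * (Q : ℝ) * (κ + 2 * ε) < 1) :
    |sig f Hf df n - sig f Hf df (up K n)| ≤ (κ + 2 * ε) / 5 := by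
  apply pair_close hG.nonneg hG.le_half hG'.nonneg hG'.le_half hS hSp _ hκ
  intro q hq
  obtain ⟨_, q5, qQ⟩ := hSp q hq
  obtain ⟨g1, g2, g3⟩ := hSG q hq
  have hM' : (0 : ℝ) < M := by exact_mod_cast hM
  have hqM : q * (M + 4) ≤ Q * (M + 4) := Nat.mul_le_mul_right _ qQ
  have hq1 : q * (M + 1) ≤ q * (M + 4) := Nat.mul_le_mul_left _ (by omega)
  have hq3 : q * (M + 3) ≤ q * (M + 4) := Nat.mul_le_mul_left _ (by omega)
  have r1 := rel_down hf hm hn (by omega : 1 ≤ q) hG g1 (hq1.trans (hqM.trans hH1))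
    (by have := (hH3 q hq).1; omega)
  have r2 := rel_up hf hm hK hn (by omega : 1 ≤ q) hG' g2 (hq3.trans (hqM.trans hH2))
    (hH3 q hq).2
  have r1' : |tau (q * sig f Hf df n) - sig f Hf df (ce n q)| ≤ ε :=
    le_of_mul_le_mul_right (r1.trans (hd q hq).1) hM'
  have r2' : |tau (q * sig f Hf df (up K n)) - sig f Hf df (up K (ce n q))| ≤ ε :=
    le_of_mul_le_mul_right (r2.trans (hd q hq).2) hM'
  rw [abs_le] at *
  constructor <;> linarith

end

end Pool.Agent.helper937_rot
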